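import Pool.Agent.H13.TFQ.M76
import Pool.Agent.H13.TFQ.M84
import Pool.Agent.H13.TFQ.M87

/-!
# Project KN, module ArtN: reduction to finite cyclic subgroups

The version of `Pool/Agent/H8/KZ/ArtZ.lean` for symbols with homology classes.
-/

set_option autoImplicit false

universe u v w

namespace Pool.Agent.H16.KN

open Pool.Agent.H95.KM (Km1 ind)
open Pool.Agent.H95.WH (FamSub conjHom FinSub)
open Pool.Agent.H71.FQ (HG HG.map centConj)

variable {G : Type v} [Group G] {n : ℕ}

/-- induction from a subgroup of a subgroup -/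
private theorem artN_ind (F : Subgroup G) (D : Subgroup F) (hle : D.map F.subtype ≤ F)
    (y : Km1 (MonoidAlgebra ℤ D)) :
    Pool.Agent.H95.KM.Km1.map (Pool.Agent.H71.FJ.incl ℤ D) y = ind ℤ (Subgroup.inclusion hle)
      (ind ℤ (D.equivMapOfInjective F.subtype F.subtype_injective).toMonoidHom y) := by
  rw [ind, ind, Pool.Agent.H95.KM.Km1.map_map]
  congr 2
  apply MonoidAlgebra.ringHom_ext
  · intro r
    change MonoidAlgebra.mapDomain _ _ = MonoidAlgebra.mapDomain _ (MonoidAlgebra.mapDomain _ _)
    rw [MonoidAlgebra.mapDomain_single, MonoidAlgebra.mapDomain_single,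
      MonoidAlgebra.mapDomain_single, map_one, map_one, map_one]
  · intro d
    change MonoidAlgebra.mapDomain _ _ = MonoidAlgebra.mapDomain _ (MonoidAlgebra.mapDomain _ _)
    rw [MonoidAlgebra.mapDomain_single, MonoidAlgebra.mapDomain_single,
      MonoidAlgebra.mapDomain_single]
    congr 1

/-- the reduction with a general index type -/
private theorem artN_exists (w : HnKm1 ℤ G n) : ∃ (M : ℤ) (ι : Type) (_ : Fintype ι)
    (C : ι → Subgroup G) (hf : ∀ i, Finite (C i)) (x : ∀ i, Km1 (MonoidAlgebra ℤ (C i)))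
    (z : ∀ i, HG (Subgroup.centralizer (C i : Set G)) n), M ≠ 0 ∧ (∀ i, IsCyclic (C i)) ∧
      M • w = ∑ i, sym (⟨C i, hf i⟩ : FamSub G FinSub) (x i) (z i) := by
  induction w using sym_induction with
  | h0 =>
    exact ⟨1, Empty, inferInstance, fun i => i.elim, fun i => i.elim, fun i => i.elim,
      fun i => i.elim, one_ne_zero, fun i => i.elim, by simp⟩
  | h1 F x z =>
    have : Finite F.1 := F.2
    obtain ⟨m, r, D, y, hm, hcyc, h⟩ := Pool.Agent.H95.KF.artin_Km1 ℤ F.1
      (Pool.Agent.H95.KF.finMod_int _) x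
    have hfin : ∀ j, Finite ((D j).map F.1.subtype) := fun j =>
      Finite.of_equiv _ ((D j).equivMapOfInjective F.1.subtype F.1.subtype_injective).toEquiv
    have hle : ∀ j, (D j).map F.1.subtype ≤ F.1 := by
      rintro j _ ⟨a, _, rfl⟩
      exact a.2
    refine ⟨m, Fin r, inferInstance, fun j => (D j).map F.1.subtype, hfin, fun j =>
      ind ℤ ((D j).equivMapOfInjective F.1.subtype F.1.subtype_injective).toMonoidHom (y j),
      fun j => HG.map n (centIncl ((D j).map F.1.subtype) F.1 (hle j)) z,
      by exact_mod_cast hm.ne', ?_, ?_⟩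
    · intro j
      have := hcyc j
      exact isCyclic_of_surjective
        ((D j).equivMapOfInjective F.1.subtype F.1.subtype_injective)
        ((D j).equivMapOfInjective F.1.subtype F.1.subtype_injective).surjective
    · rw [natCast_zsmul, ← symH_apply, ← map_nsmul, h, map_sum]
      apply Finset.sum_congr rfl
      intro j _
      rw [symH_apply]
      have h2 := sym_incl F ⟨(D j).map F.1.subtype, hfin j⟩ (hle j)
        (ind ℤ ((D j).equivMapOfInjective F.1.subtype F.1.subtype_injective).toMonoidHom (y j)) z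
      rw [← h2]
      congr 1
      exact artN_ind F.1 (D j) (hle j) (y j)
  | h2 a b ha hb =>
    obtain ⟨M, ι, hι, C, hf, x, z, hM, hC, h⟩ := ha
    obtain ⟨M', ι', hι', C', hf', x', z', hM', hC', h'⟩ := hb
    refine ⟨M * M', ι ⊕ ι', inferInstance, Sum.elim C C', ?_, ?_, ?_, mul_ne_zero hM hM', ?_, ?_⟩
    · rintro (i | i)
      · exact hf i
      · exact hf' i
    · exact fun i => match i with
        | Sum.inl i => M' • x i
        | Sum.inr i => M • x' i
    · exact fun i => match i with
        | Sum.inl i => z i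
        | Sum.inr i => z' i
    · rintro (i | i)
      · exact hC i
      · exact hC' i
    · rw [Fintype.sum_sum_type, smul_add]
      congr 1
      · rw [mul_comm M M', mul_smul, h, Finset.smul_sum]
        apply Finset.sum_congr rfl
        intro i _
        rw [← symH_apply, ← map_zsmul]
        rfl
      · rw [mul_smul, h', Finset.smul_sum]
        apply Finset.sum_congr rfl
        intro i _
        rw [← symH_apply, ← map_zsmul]
        rfl
  | h3 a ha =>
    obtain ⟨M, ι, hι, C, hf, x, z, hM, hC, h⟩ := ha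
    refine ⟨M, ι, hι, C, hf, fun i => - x i, z, hM, hC, ?_⟩
    rw [smul_neg, h, ← Finset.sum_neg_distrib]
    apply Finset.sum_congr rfl
    intro i _
    rw [← symH_apply, ← symH_apply, map_neg]

/-- **Reduction to finite cyclic subgroups.** -/
theorem exists_cycN (w : HnKm1 ℤ G n) : ∃ (M : ℤ) (r : ℕ) (C : Fin r → Subgroup G)
    (hf : ∀ i, Finite (C i)) (x : ∀ i, Km1 (MonoidAlgebra ℤ (C i)))
    (z : ∀ i, HG (Subgroup.centralizer (C i : Set G)) n), M ≠ 0 ∧ (∀ i, IsCyclic (C i)) ∧
      M • w = ∑ i, sym (⟨C i, hf i⟩ : FamSub G FinSub) (x i) (z i) := by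
  obtain ⟨M, ι, hι, C, hf, x, z, hM, hC, h⟩ := artN_exists w
  let e := Fintype.equivFin ι
  refine ⟨M, Fintype.card ι, fun i => C (e.symm i), fun i => hf _, fun i => x _, fun i => z _, hM,
    fun i => hC _, ?_⟩
  rw [h]
  exact (Equiv.sum_comp e.symm
    (fun i => sym (⟨C i, hf i⟩ : FamSub G FinSub) (x i) (z i))).symm

end Pool.Agent.H16.KN
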