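import Pool.Agent.H13.TFQ.H16.KN.Cmp
import Pool.Agent.H13.TFQ.H16.KN.Sy

/-!
# Project KN: the prism of a trivialization

Let `E = Y X`, `X Y = 1` over `P`.  `MX` is the image in `GL_{N+1}(A)` of the involution `(1 - E, Y; X, 0)`,
`SE γ = diag (rho E γ, 1)`, `RE γ = diag (1, κ γ)`, and `MX * RE γ = SE γ * MX`.  `PM z` is the chain of the prism
between the vertex maps `SE` and `SE * MX = MX * RE`.

PROOFS.  `MX_conj`: model `rho_equiv` in `FQ/Asm.lean` (`bmat_mul_map`, `map_mul_bmat` are private there: copy them).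
`ch_prism_blk`: `push_prism` for `blk` and the two projections, `ch_push_blk`.
`qbd_PM`: `ch_bd`, `bd_prism_cyc` with `f = SE` and `ch_coi`; `SE * MX = MX * RE`, `ch_push_left`, `ch_push_blk`.
`PM_cmp`: `prism_tri` for `SE`, `SE * MX`, `SE * MX'`; `MX' = MX * blk (D, V)` (`MX` is an involution,
`MX * MX' = blk (1 - E + Y X', X Y')`); `push_prism`, `ch_push_left`, `ch_prism_blk`; `v = - ch y`.
`map_PM`: `map_ch`, `push_prism`.
-/

set_option autoImplicit false

open Matrix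

universe u v w

namespace Pool.Agent.H16.KN

open Pool.Agent.H71.FQ
open Pool.Agent.H71.FJ (K0 K0.mk IdemMat)
open Pool.Agent.H71.DB (bmat bU bmat_mul bmat_one map_mul_map comm_sub_one)

section

variable {P : Type u} [Ring P] {A : Type v} [Ring A] {Γ : Type w} [Group Γ] {k : ℕ}

variable (φ : P →+* A) (κ : Γ →* Aˣ) (hκ : ∀ γ b, φ b * (κ γ : A) = κ γ * φ b) (E : IdemMat P)

/-- the `1 × 1` matrix `κ γ` (this is `rho` of the idempotent `1`, used in `sy`) -/
noncomputable def kp : Γ →* GLm 1 A := rho φ κ hκ (oneE P)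

theorem kp_val (γ : Γ) (i j : Fin 1) : (kp φ κ hκ γ).val i j = (κ γ : A) := by
  rw [Subsingleton.elim i 0, Subsingleton.elim j 0]
  show (1 : Matrix (Fin 1) (Fin 1) A) 0 0 + φ ((1 : Matrix (Fin 1) (Fin 1) P) 0 0) *
    ((κ γ : A) - 1) = (κ γ : A)
  rw [Matrix.one_apply_eq, Matrix.one_apply_eq, map_one, one_mul, add_sub_cancel]

/-- `diag (1, κ γ)` -/
noncomputable def RE : Γ →* GLm (E.n + 1) A :=
  (blk E.n 1 A).comp (MonoidHom.prod 1 (kp φ κ hκ))

theorem MX_conj (X : Matrix (Fin 1) (Fin E.n) P) (Y : Matrix (Fin E.n) (Fin 1) P)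
    (hXY : X * Y = 1) (hYX : Y * X = E.mat) (γ : Γ) :
    MX φ E X Y hXY hYX * RE φ κ hκ E γ = SE φ κ hκ E γ * MX φ E X Y hXY hYX := by
  have h1 : E.mat * Y = Y := by rw [← hYX, Matrix.mul_assoc, hXY, Matrix.mul_one]
  have h2 : E.mat * (1 - E.mat) = 0 := by rw [mul_sub, mul_one, E.idem, sub_self]
  apply Units.ext
  rw [Units.val_mul, Units.val_mul, cmp_mx_val]
  change (fromBlocks ((1 - E.mat).map φ) (Y.map φ) (X.map φ) 0).submatrix finSumFinEquiv.symm
      finSumFinEquiv.symm * (fromBlocks (1 : Matrix (Fin E.n) (Fin E.n) A) 0 0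
        (kp φ κ hκ γ).val).submatrix finSumFinEquiv.symm finSumFinEquiv.symm =
    (fromBlocks (bmat φ E.mat (κ γ : A)) 0 0 (1 : Matrix (Fin 1) (Fin 1) A)).submatrix
      finSumFinEquiv.symm finSumFinEquiv.symm *
      (fromBlocks ((1 - E.mat).map φ) (Y.map φ) (X.map φ) 0).submatrix finSumFinEquiv.symm
        finSumFinEquiv.symm
  rw [submatrix_mul_equiv, submatrix_mul_equiv, fromBlocks_multiply, fromBlocks_multiply]
  congr 2
  · rw [Matrix.mul_one, Matrix.mul_zero, add_zero, Matrix.zero_mul, add_zero,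
      cmp_bmat_mul φ E.mat _ _ (hκ γ), h2]
    refine Matrix.ext fun i j => ?_
    simp
  · rw [Matrix.mul_zero, zero_add, Matrix.mul_zero, add_zero, cmp_bmat_mul φ E.mat _ _ (hκ γ), h1]
    refine Matrix.ext fun i j => ?_
    rw [Matrix.mul_apply, Fin.sum_univ_one, Matrix.add_apply, Matrix.map_apply, Matrix.map_apply,
      Matrix.map_apply, kp_val, Subsingleton.elim j 0, mul_sub, mul_one, add_sub_cancel]
  · rw [Matrix.mul_one, Matrix.mul_zero, add_zero, Matrix.zero_mul, zero_add, Matrix.one_mul]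
  · rw [Matrix.mul_zero, Matrix.zero_mul, Matrix.zero_mul, Matrix.one_mul]

theorem ch_prism_blk {X : Type*} (N M : ℕ) (a a' : X → GLm N A) (b b' : X → GLm M A)
    (c : Cx ℤ X k) :
    ch (N + M) (prism (fun y => blk N M A (a y, b y)) (fun y => blk N M A (a' y, b' y)) k c) =
      ch N (prism a a' k c) + ch M (prism b b' k c) := by
  have h1 := push_prism (fun y => (a y, b y)) (fun y => (a' y, b' y))
    (fun w : GLm N A × GLm M A => blk N M A w) k c
  have h2 := ch_push_blk N M (fun w : GLm N A × GLm M A => w.1) (fun w => w.2)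
    (prism (fun y => (a y, b y)) (fun y => (a' y, b' y)) k c)
  have h3 := push_prism (fun y => (a y, b y)) (fun y => (a' y, b' y))
    (fun w : GLm N A × GLm M A => w.1) k c
  have h4 := push_prism (fun y => (a y, b y)) (fun y => (a' y, b' y))
    (fun w : GLm N A × GLm M A => w.2) k c
  rw [h3, h4] at h2
  exact (congrArg (ch (N + M)) h1.symm).trans h2

theorem qbd_PM (X : Matrix (Fin 1) (Fin E.n) P) (Y : Matrix (Fin E.n) (Fin 1) P)
    (hXY : X * Y = 1) (hYX : Y * X = E.mat) (z : cyc Γ k) :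
    qbd (PM φ κ hκ E X Y hXY hYX (z : Cx ℤ Γ (k + 1))) + sy φ κ hκ E (z : Cx ℤ Γ (k + 1)) =
      ch E.n (push ℤ (fun _ => 1) (k + 1) (z : Cx ℤ Γ (k + 1))) -
        ch 1 (push ℤ (fun _ => 1) (k + 1) (z : Cx ℤ Γ (k + 1))) := by
  have h1 := bd_prism_cyc (SE φ κ hκ E) (fun y => SE φ κ hκ E y)
    (fun y => SE φ κ hκ E y * MX φ E X Y hXY hYX) (fun g x => map_mul _ g x)
    (fun g x => by rw [map_mul, mul_assoc]) z.2
  have h2 := ch_coi (E.n + 1) h1
  rw [map_sub, map_sub, sub_eq_zero] at h2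
  have h3 : ch (E.n + 1) (push ℤ (fun y => SE φ κ hκ E y) (k + 1) (z : Cx ℤ Γ (k + 1))) =
      ch E.n (push ℤ (rho φ κ hκ E) (k + 1) (z : Cx ℤ Γ (k + 1))) +
        ch 1 (push ℤ (fun _ => 1) (k + 1) (z : Cx ℤ Γ (k + 1))) :=
    ch_push_blk E.n 1 (fun y => rho φ κ hκ E y) (fun _ => 1) _
  have h4 : ch (E.n + 1) (push ℤ (fun y => SE φ κ hκ E y * MX φ E X Y hXY hYX) (k + 1)
      (z : Cx ℤ Γ (k + 1))) = ch E.n (push ℤ (fun _ => 1) (k + 1) (z : Cx ℤ Γ (k + 1))) +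
        ch 1 (push ℤ (rho φ κ hκ (oneE P)) (k + 1) (z : Cx ℤ Γ (k + 1))) := by
    have e1 : (fun y => SE φ κ hκ E y * MX φ E X Y hXY hYX) =
        fun y => MX φ E X Y hXY hYX * RE φ κ hκ E y :=
      funext fun y => (MX_conj φ κ hκ E X Y hXY hYX y).symm
    have e2 := push_push (R := ℤ) (fun y => RE φ κ hκ E y) (fun y => MX φ E X Y hXY hYX * y) (k + 1)
      (z : Cx ℤ Γ (k + 1))
    have e3 := ch_push_left (E.n + 1) (MX φ E X Y hXY hYX)
      (push ℤ (fun y => RE φ κ hκ E y) (k + 1) (z : Cx ℤ Γ (k + 1)))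
    rw [e1]
    refine (congrArg (ch (E.n + 1)) e2.symm).trans (e3.trans ?_)
    exact ch_push_blk E.n 1 (fun _ => 1) (fun y => kp φ κ hκ y) _
  rw [PM, ch_bd, h2, h3, h4, sy]
  abel

/-- **Comparison of two trivializations.** -/
theorem PM_cmp (X : Matrix (Fin 1) (Fin E.n) P) (Y : Matrix (Fin E.n) (Fin 1) P)
    (hXY : X * Y = 1) (hYX : Y * X = E.mat) (X' : Matrix (Fin 1) (Fin E.n) P)
    (Y' : Matrix (Fin E.n) (Fin 1) P) (hXY' : X' * Y' = 1) (hYX' : Y' * X' = E.mat)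
    (V : GLm 1 A) (hV : V.val = (X * Y').map φ) (D : GLm E.n A)
    (hD : D.val = (1 - E.mat + Y * X').map φ) (z : cyc Γ k) :
    ∃ v : QC A (k + 3),
      PM φ κ hκ E X' Y' hXY' hYX' (z : Cx ℤ Γ (k + 1)) -
        PM φ κ hκ E X Y hXY hYX (z : Cx ℤ Γ (k + 1)) -
        ch E.n (prism (fun _ => 1) (fun _ => D) (k + 1) (z : Cx ℤ Γ (k + 1))) -
        ch 1 (prism (fun y => kp φ κ hκ y) (fun y => kp φ κ hκ y * V) (k + 1)
          (z : Cx ℤ Γ (k + 1))) = qbd v := by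
  obtain ⟨y, hy⟩ := prism_tri (SE φ κ hκ E) (fun y => SE φ κ hκ E y)
    (fun y => SE φ κ hκ E y * MX φ E X Y hXY hYX) (fun y => SE φ κ hκ E y * MX φ E X' Y' hXY' hYX')
    (fun g x => map_mul _ g x) (fun g x => by rw [map_mul, mul_assoc])
    (fun g x => by rw [map_mul, mul_assoc]) z.2
  have h1 := ch_coi (E.n + 1) hy
  rw [map_sub, map_sub, map_add, ← ch_bd] at h1
  have h2 : ch (E.n + 1) (prism (fun y => SE φ κ hκ E y * MX φ E X Y hXY hYX)
      (fun y => SE φ κ hκ E y * MX φ E X' Y' hXY' hYX') (k + 1) (z : Cx ℤ Γ (k + 1))) =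
      ch E.n (prism (fun _ => 1) (fun _ => D) (k + 1) (z : Cx ℤ Γ (k + 1))) +
        ch 1 (prism (fun y => kp φ κ hκ y) (fun y => kp φ κ hκ y * V) (k + 1)
          (z : Cx ℤ Γ (k + 1))) := by
    have e1 : (fun y => SE φ κ hκ E y * MX φ E X Y hXY hYX) =
        fun y => MX φ E X Y hXY hYX * blk E.n 1 A (1, kp φ κ hκ y) :=
      funext fun y => (MX_conj φ κ hκ E X Y hXY hYX y).symm
    have e2 : (fun y => SE φ κ hκ E y * MX φ E X' Y' hXY' hYX') =
        fun y => MX φ E X Y hXY hYX * blk E.n 1 A (D, kp φ κ hκ y * V) := by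
      funext y
      rw [cmp_mx_mul φ E X Y hXY hYX X' Y' hXY' hYX' V hV D hD, ← mul_assoc,
        ← MX_conj φ κ hκ E X Y hXY hYX y, mul_assoc]
      refine congrArg (fun a => MX φ E X Y hXY hYX * a) ?_
      show blk E.n 1 A (1, kp φ κ hκ y) * blk E.n 1 A (D, V) = _
      rw [← map_mul, Prod.mk_mul_mk, one_mul]
    rw [e1, e2]
    have e3 := push_prism (fun y => blk E.n 1 A (1, kp φ κ hκ y))
      (fun y => blk E.n 1 A (D, kp φ κ hκ y * V)) (fun a => MX φ E X Y hXY hYX * a) (k + 1)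
      (z : Cx ℤ Γ (k + 1))
    refine (congrArg (ch (E.n + 1)) e3.symm).trans ((ch_push_left _ _ _).trans ?_)
    exact ch_prism_blk E.n 1 (fun _ => 1) (fun _ => D) (fun y => kp φ κ hκ y)
      (fun y => kp φ κ hκ y * V) (z : Cx ℤ Γ (k + 1))
  refine ⟨- ch (E.n + 1) y, ?_⟩
  rw [h2] at h1
  rw [map_neg, PM, PM]
  rw [sub_eq_zero, sub_eq_iff_eq_add] at h1
  rw [← sub_eq_zero]
  have h3 : ∀ a b c d e : QC A (k + 2), a + (c + d) - b = e → b - a - c - d - -e = 0 := by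
    intro a b c d e h
    rw [← h]
    abel
  exact h3 _ _ _ _ _ (sub_eq_iff_eq_add.2 h1)

end

end Pool.Agent.H16.KN
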