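import Pool.Agent.H13.TFQ.H71.FQ.Asm
import Pool.Agent.H13.TFQ.M76

/-!
# Project KN, module Defs2: the target `LKQ A n` and the product `K₋₁(B) × H_{n+1}(Γ) → LKQ A n`

`LKQ A n` is the cokernel of `KQ (A[t]) n ⊕ KQ (A[t⁻¹]) n → KQ (A[t, t⁻¹]) n`.  For a ring homomorphism `φ : B → A`
and a homomorphism `κ : Γ → Aˣ` with values commuting with the image of `φ`, `lasm n φ κ hκ` sends the class of an
idempotent matrix `e` over `B[t, t⁻¹]` and `z ∈ H_{n+1}(Γ; ℤ)` to the class of the image of `z` under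
`γ ↦ 1 + φ(e) (κ γ - 1)`.
-/

set_option autoImplicit false

open Matrix
open scoped LaurentPolynomial

universe u v w

namespace Pool.Agent.H16.KN

open Pool.Agent.H71.FJ (MatEquiv IdemMat K0 K0.mk K0.lift K0.lift_mk K0.hom_ext K0.map)
open Pool.Agent.H95.KM (Km1 ind posHom negHom lau lau_posHom lau_negHom lau_comp lau_single)
open Pool.Agent.H95.WH (FamSub conjHom FinSub)
open Pool.Agent.H71.FQ (HG HG.map centConj KQ KQ.map KQ.cls)

section aux

/-- functoriality of `KQ` -/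
theorem KQ_map_map {A : Type u} [Ring A] {B : Type v} [Ring B] {C : Type w} [Ring C] {n : ℕ}
    (g : B →+* C) (f : A →+* B) (x : KQ A n) : KQ.map g (KQ.map f x) = KQ.map (g.comp f) x := by
  suffices h : (KQ.map (n := n) g).comp (KQ.map f) = KQ.map (g.comp f) from
    DFunLike.congr_fun h x
  apply Pool.Agent.H71.FQ.KQ.hom_ext
  intro N x
  rw [AddMonoidHom.comp_apply, Pool.Agent.H71.FQ.KQ.map_cls, Pool.Agent.H71.FQ.KQ.map_cls,
    Pool.Agent.H71.FQ.KQ.map_cls, Pool.Agent.H71.FQ.HG.map_map]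
  rfl

theorem asm_congr' {A : Type u} [Ring A] {B : Type v} [Ring B] {Γ : Type w} [Group Γ] {n : ℕ}
    {φ φ' : B →+* A} {κ κ' : Γ →* Aˣ} (e : φ = φ') (e' : κ = κ')
    (hκ : ∀ γ b, φ b * (κ γ : A) = κ γ * φ b) (hκ' : ∀ γ b, φ' b * (κ' γ : A) = κ' γ * φ' b)
    (x : K0 B) (z : HG Γ n) :
    Pool.Agent.H71.FQ.asm n φ κ hκ x z = Pool.Agent.H71.FQ.asm n φ' κ' hκ' x z := by
  subst e
  subst e'
  rfl

/-- naturality of the product in both rings -/
theorem asm_sq {A A' : Type u} [Ring A] [Ring A'] {B B' : Type v} [Ring B] [Ring B']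
    {Γ : Type w} [Group Γ] {n : ℕ} (φ : B →+* A) (φ' : B' →+* A') (j : B' →+* B) (i : A' →+* A)
    (κ : Γ →* Aˣ) (κ' : Γ →* A'ˣ) (hκ : ∀ γ b, φ b * (κ γ : A) = κ γ * φ b)
    (hκ' : ∀ γ b, φ' b * (κ' γ : A') = κ' γ * φ' b) (e : φ.comp j = i.comp φ')
    (e' : κ = (Units.map (i : A' →* A)).comp κ') (x : K0 B') (z : HG Γ n) :
    Pool.Agent.H71.FQ.asm n φ κ hκ (K0.map j x) z =
      KQ.map i (Pool.Agent.H71.FQ.asm n φ' κ' hκ' x z) := by
  subst e'
  have h1 : ∀ γ b, (i.comp φ') b * (((Units.map (i : A' →* A)).comp κ') γ : A) =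
      ((Units.map (i : A' →* A)).comp κ') γ * (i.comp φ') b := by
    rw [← e]
    exact fun γ b => hκ γ _
  rw [Pool.Agent.H71.FQ.map_asm φ' κ' hκ' i h1,
    Pool.Agent.H71.FQ.asm_comp φ j _ hκ (fun γ c => hκ γ _)]
  exact asm_congr' e rfl _ _ x z

end aux

section LKQ

variable (A : Type u) [Ring A] (n : ℕ)

/-- The subgroup of `KQ (A[t, t⁻¹]) n` generated by the images of `KQ (A[t]) n` and `KQ (A[t⁻¹]) n`. -/
noncomputable def LRel : AddSubgroup (KQ A[T;T⁻¹] n) :=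
  (KQ.map (n := n) (posHom A)).range ⊔ (KQ.map (n := n) (negHom A)).range

/-- The cokernel of `KQ (A[t]) n ⊕ KQ (A[t⁻¹]) n → KQ (A[t, t⁻¹]) n`. -/
def LKQ : Type u := KQ A[T;T⁻¹] n ⧸ LRel A n

noncomputable instance instLKQ : AddCommGroup (LKQ A n) :=
  QuotientAddGroup.Quotient.addCommGroup (LRel A n)

variable {A n} {B : Type v} [Ring B] {C : Type w} [Ring C]

/-- The class in `LKQ A n`. -/
noncomputable def LKQ.mk : KQ A[T;T⁻¹] n →+ LKQ A n := QuotientAddGroup.mk' (LRel A n)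

theorem LKQ.mk_surjective : Function.Surjective (LKQ.mk : KQ A[T;T⁻¹] n →+ LKQ A n) :=
  QuotientAddGroup.mk_surjective

theorem LKQ.mk_eq_zero {x : KQ A[T;T⁻¹] n} : LKQ.mk x = 0 ↔ x ∈ LRel A n :=
  QuotientAddGroup.eq_zero_iff x

/-- elements which vanish in the cokernel -/
theorem LKQ.mk_eq_zero_iff {x : KQ A[T;T⁻¹] n} :
    LKQ.mk x = 0 ↔ ∃ a b, KQ.map (posHom A) a + KQ.map (negHom A) b = x := by
  rw [LKQ.mk_eq_zero, LRel, AddSubgroup.mem_sup]
  constructor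
  · rintro ⟨_, ⟨a, rfl⟩, _, ⟨b, rfl⟩, h⟩
    exact ⟨a, b, h⟩
  · rintro ⟨a, b, h⟩
    exact ⟨_, ⟨a, rfl⟩, _, ⟨b, rfl⟩, h⟩

theorem LKQ.mk_pos (x : KQ (Polynomial A) n) : LKQ.mk (KQ.map (posHom A) x) = 0 :=
  LKQ.mk_eq_zero.2 (AddSubgroup.mem_sup_left ⟨x, rfl⟩)

theorem LKQ.mk_neg (x : KQ (Polynomial A) n) : LKQ.mk (KQ.map (negHom A) x) = 0 :=
  LKQ.mk_eq_zero.2 (AddSubgroup.mem_sup_right ⟨x, rfl⟩)

/-- Homomorphisms out of `LKQ A n`. -/
noncomputable def LKQ.lift {M : Type*} [AddCommGroup M] (F : KQ A[T;T⁻¹] n →+ M)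
    (h1 : ∀ x, F (KQ.map (posHom A) x) = 0) (h2 : ∀ x, F (KQ.map (negHom A) x) = 0) :
    LKQ A n →+ M :=
  QuotientAddGroup.lift (LRel A n) F (by
    rw [LRel, sup_le_iff]
    constructor
    · rintro _ ⟨x, rfl⟩
      exact h1 x
    · rintro _ ⟨x, rfl⟩
      exact h2 x)

/-- The homomorphism `LKQ A n → LKQ B n` induced by a ring homomorphism `A → B`. -/
noncomputable def LKQ.map (f : A →+* B) : LKQ A n →+ LKQ B n :=
  LKQ.lift (LKQ.mk.comp (KQ.map (lau f)))
    (fun x => by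
      rw [AddMonoidHom.comp_apply, KQ_map_map, lau_posHom,
        ← KQ_map_map, LKQ.mk_pos])
    (fun x => by
      rw [AddMonoidHom.comp_apply, KQ_map_map, lau_negHom,
        ← KQ_map_map, LKQ.mk_neg])

theorem LKQ.map_mk (f : A →+* B) (x : KQ A[T;T⁻¹] n) :
    LKQ.map f (LKQ.mk x) = LKQ.mk (KQ.map (lau f) x) := rfl

end LKQ

section lasm

variable {A : Type u} [Ring A] {B : Type v} [Ring B] {Γ : Type w} [Group Γ] {n : ℕ}

/-- The units of `A` as units of `A[t, t⁻¹]`. -/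
noncomputable def luH (A : Type u) [Ring A] : Aˣ →* (A[T;T⁻¹])ˣ :=
  Units.map ((LaurentPolynomial.C : A →+* A[T;T⁻¹]) : A →* A[T;T⁻¹])

/-- The units of `A` as units of `A[t]`. -/
noncomputable def puH (A : Type u) [Ring A] : Aˣ →* (Polynomial A)ˣ :=
  Units.map ((Polynomial.C : A →+* Polynomial A) : A →* Polynomial A)

theorem posHom_C (a : A) : posHom A (Polynomial.C a) = AddMonoidAlgebra.single 0 a := by
  have h := Pool.Agent.H95.KM.posHom_monomial (R := A) 0 a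
  rw [Polynomial.monomial_zero_left] at h
  exact h

theorem negHom_C (a : A) : negHom A (Polynomial.C a) = AddMonoidAlgebra.single 0 a := by
  have h := Pool.Agent.H95.KM.negHom_monomial (R := A) 0 a
  rw [Polynomial.monomial_zero_left] at h
  exact h

theorem lau_comm (φ : B →+* A) (κ : Γ →* Aˣ) (hκ : ∀ γ b, φ b * (κ γ : A) = κ γ * φ b) (γ : Γ)
    (b : B[T;T⁻¹]) : lau φ b * (((luH A).comp κ) γ : A[T;T⁻¹]) = ((luH A).comp κ) γ * lau φ b := by
  change lau φ b * AddMonoidAlgebra.single 0 (κ γ : A) =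
    AddMonoidAlgebra.single 0 (κ γ : A) * lau φ b
  induction b using AddMonoidAlgebra.induction_linear with
  | zero => simp
  | add x y hx hy => rw [map_add, add_mul, mul_add, hx, hy]
  | single k r =>
    rw [lau_single, AddMonoidAlgebra.single_mul_single, AddMonoidAlgebra.single_mul_single, hκ,
      add_zero, zero_add]

theorem pol_comm (φ : B →+* A) (κ : Γ →* Aˣ) (hκ : ∀ γ b, φ b * (κ γ : A) = κ γ * φ b) (γ : Γ)
    (b : Polynomial B) : Polynomial.mapRingHom φ b * (((puH A).comp κ) γ : Polynomial A) =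
      ((puH A).comp κ) γ * Polynomial.mapRingHom φ b := by
  change Polynomial.mapRingHom φ b * Polynomial.C (κ γ : A) =
    Polynomial.C (κ γ : A) * Polynomial.mapRingHom φ b
  rw [Polynomial.coe_mapRingHom]
  ext i
  rw [Polynomial.coeff_mul_C, Polynomial.coeff_C_mul, Polynomial.coeff_map, hκ]

theorem luH_pos (κ : Γ →* Aˣ) : (luH A).comp κ =
    (Units.map ((posHom A : Polynomial A →+* A[T;T⁻¹]) : Polynomial A →* A[T;T⁻¹])).comp
      ((puH A).comp κ) := by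
  apply MonoidHom.ext
  intro γ
  apply Units.ext
  exact (posHom_C (κ γ : A)).symm

theorem luH_neg (κ : Γ →* Aˣ) : (luH A).comp κ =
    (Units.map ((negHom A : Polynomial A →+* A[T;T⁻¹]) : Polynomial A →* A[T;T⁻¹])).comp
      ((puH A).comp κ) := by
  apply MonoidHom.ext
  intro γ
  apply Units.ext
  exact (negHom_C (κ γ : A)).symm

variable (n) in
/-- The product `K₋₁(B) × H_{n+1}(Γ) → LKQ A n`. -/
noncomputable def lasm (φ : B →+* A) (κ : Γ →* Aˣ) (hκ : ∀ γ b, φ b * (κ γ : A) = κ γ * φ b) :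
    Km1 B →+ (HG Γ n →+ LKQ A n) :=
  Pool.Agent.H95.KM.Km1.lift ((AddMonoidHom.compHom (LKQ.mk (A := A) (n := n))).comp
      (Pool.Agent.H71.FQ.asm n (lau φ) ((luH A).comp κ) (lau_comm φ κ hκ)))
    (fun x => by
      apply AddMonoidHom.ext
      intro z
      have h1 := asm_sq (n := n) (lau φ) (Polynomial.mapRingHom φ) (posHom B) (posHom A)
        ((luH A).comp κ) ((puH A).comp κ) (lau_comm φ κ hκ) (pol_comm φ κ hκ) (lau_posHom φ)
        (luH_pos κ) x z
      exact (congrArg LKQ.mk h1).trans (LKQ.mk_pos _))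
    (fun x => by
      apply AddMonoidHom.ext
      intro z
      have h1 := asm_sq (n := n) (lau φ) (Polynomial.mapRingHom φ) (negHom B) (negHom A)
        ((luH A).comp κ) ((puH A).comp κ) (lau_comm φ κ hκ) (pol_comm φ κ hκ) (lau_negHom φ)
        (luH_neg κ) x z
      exact (congrArg LKQ.mk h1).trans (LKQ.mk_neg _))

theorem lasm_mk (φ : B →+* A) (κ : Γ →* Aˣ) (hκ : ∀ γ b, φ b * (κ γ : A) = κ γ * φ b)
    (x : K0 B[T;T⁻¹]) (z : HG Γ n) : lasm n φ κ hκ (Pool.Agent.H95.KM.Km1.mk x) z =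
      LKQ.mk (Pool.Agent.H71.FQ.asm n (lau φ) ((luH A).comp κ) (lau_comm φ κ hκ) x z) := rfl

theorem lasm_congr {φ φ' : B →+* A} {κ κ' : Γ →* Aˣ} (e : φ = φ') (e' : κ = κ')
    (hκ : ∀ γ b, φ b * (κ γ : A) = κ γ * φ b) (hκ' : ∀ γ b, φ' b * (κ' γ : A) = κ' γ * φ' b)
    (x : Km1 B) (z : HG Γ n) : lasm n φ κ hκ x z = lasm n φ' κ' hκ' x z := by
  subst e
  subst e'
  rfl

theorem lasm_comp {C : Type*} [Ring C] (φ : B →+* A) (ψ : C →+* B) (κ : Γ →* Aˣ)
    (hκ : ∀ γ b, φ b * (κ γ : A) = κ γ * φ b)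
    (h : ∀ γ c, (φ.comp ψ) c * (κ γ : A) = κ γ * (φ.comp ψ) c) (x : Km1 C) (z : HG Γ n) :
    lasm n φ κ hκ (Pool.Agent.H95.KM.Km1.map ψ x) z = lasm n (φ.comp ψ) κ h x z := by
  obtain ⟨x, rfl⟩ := Pool.Agent.H95.KM.Km1.mk_surjective x
  rw [Pool.Agent.H95.KM.Km1.map_mk, lasm_mk, lasm_mk]
  congr 1
  rw [Pool.Agent.H71.FQ.asm_comp (lau φ) (lau ψ) _ _ (fun γ c => lau_comm φ κ hκ γ _)]
  exact asm_congr' (lau_comp φ ψ).symm rfl _ _ x z

theorem lasm_map {Γ' : Type*} [Group Γ'] (φ : B →+* A) (κ : Γ →* Aˣ)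
    (hκ : ∀ γ b, φ b * (κ γ : A) = κ γ * φ b) (f : Γ' →* Γ)
    (h : ∀ γ b, φ b * ((κ.comp f) γ : A) = (κ.comp f) γ * φ b) (x : Km1 B) (z : HG Γ' n) :
    lasm n φ κ hκ x (HG.map n f z) = lasm n φ (κ.comp f) h x z := by
  obtain ⟨x, rfl⟩ := Pool.Agent.H95.KM.Km1.mk_surjective x
  rw [lasm_mk, lasm_mk]
  exact congrArg LKQ.mk (Pool.Agent.H71.FQ.asm_map (lau φ) ((luH A).comp κ) (lau_comm φ κ hκ) f
    (lau_comm φ (κ.comp f) h) x z)

theorem lasm_conj (φ φ' : B →+* A) (κ κ' : Γ →* Aˣ) (g : Aˣ)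
    (hκ : ∀ γ b, φ b * (κ γ : A) = κ γ * φ b) (hκ' : ∀ γ b, φ' b * (κ' γ : A) = κ' γ * φ' b)
    (h : ∀ b, φ' b = g * φ b * ((g⁻¹ : Aˣ) : A)) (h' : ∀ γ, κ' γ = g * κ γ * g⁻¹)
    (x : Km1 B) (z : HG Γ n) : lasm n φ' κ' hκ' x z = lasm n φ κ hκ x z := by
  obtain ⟨x, rfl⟩ := Pool.Agent.H95.KM.Km1.mk_surjective x
  rw [lasm_mk, lasm_mk]
  refine congrArg LKQ.mk (Pool.Agent.H71.FQ.asm_conj (lau φ) (lau φ') ((luH A).comp κ)
    ((luH A).comp κ') (luH A g) (lau_comm φ κ hκ) (lau_comm φ' κ' hκ') (fun b => ?_)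
    (fun γ => ?_) x z)
  · rw [← map_inv]
    change lau φ' b = AddMonoidAlgebra.single 0 (g : A) * lau φ b *
      AddMonoidAlgebra.single 0 ((g⁻¹ : Aˣ) : A)
    induction b using AddMonoidAlgebra.induction_linear with
    | zero => simp
    | add x y hx hy => rw [map_add, hx, hy, map_add, mul_add, add_mul]
    | single k r =>
      rw [lau_single, lau_single, AddMonoidAlgebra.single_mul_single,
        AddMonoidAlgebra.single_mul_single, h, add_zero, zero_add]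
  · rw [MonoidHom.comp_apply, MonoidHom.comp_apply, h', map_mul, map_mul, map_inv]

theorem map_lasm {C : Type*} [Ring C] (φ : B →+* A) (κ : Γ →* Aˣ)
    (hκ : ∀ γ b, φ b * (κ γ : A) = κ γ * φ b) (f : A →+* C)
    (h : ∀ γ b, (f.comp φ) b * (((Units.map (f : A →* C)).comp κ) γ : C) =
      ((Units.map (f : A →* C)).comp κ) γ * (f.comp φ) b) (x : Km1 B) (z : HG Γ n) :
    LKQ.map f (lasm n φ κ hκ x z) = lasm n (f.comp φ) ((Units.map (f : A →* C)).comp κ) h x z := by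
  obtain ⟨x, rfl⟩ := Pool.Agent.H95.KM.Km1.mk_surjective x
  rw [lasm_mk, lasm_mk, LKQ.map_mk]
  congr 1
  have e1 : lau (f.comp φ) = (lau f).comp (lau φ) := lau_comp f φ
  have e2 : (luH C).comp ((Units.map (f : A →* C)).comp κ) =
      (Units.map ((lau f : A[T;T⁻¹] →+* C[T;T⁻¹]) : A[T;T⁻¹] →* C[T;T⁻¹])).comp
        ((luH A).comp κ) := by
    apply MonoidHom.ext
    intro γ
    apply Units.ext
    exact (lau_single f 0 (κ γ : A)).symm
  have h1 : ∀ γ b, ((lau f).comp (lau φ)) b *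
      (((Units.map ((lau f : A[T;T⁻¹] →+* C[T;T⁻¹]) : A[T;T⁻¹] →* C[T;T⁻¹])).comp
        ((luH A).comp κ)) γ : C[T;T⁻¹]) =
      ((Units.map ((lau f : A[T;T⁻¹] →+* C[T;T⁻¹]) : A[T;T⁻¹] →* C[T;T⁻¹])).comp
        ((luH A).comp κ)) γ * ((lau f).comp (lau φ)) b := by
    rw [← e1, ← e2]
    exact lau_comm (f.comp φ) _ h
  rw [Pool.Agent.H71.FQ.map_asm _ _ _ _ h1]
  exact asm_congr' e1.symm e2.symm _ _ x z

end lasm

section pr

open Pool.Agent.H71.FQ (grpHom grpHom_comm)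

/-- The elements of `G` as units of `R[G][t, t⁻¹]`. -/
noncomputable def lgrp (R : Type u) [Ring R] (G : Type v) [Group G] :
    G →* ((MonoidAlgebra R G)[T;T⁻¹])ˣ :=
  (luH (MonoidAlgebra R G)).comp (grpHom R G)

theorem lgrp_val (R : Type u) [Ring R] {G : Type v} [Group G] (g : G) :
    (lgrp R G g : (MonoidAlgebra R G)[T;T⁻¹]) =
      AddMonoidAlgebra.single 0 (MonoidAlgebra.single g 1) := rfl

variable (R : Type u) [Ring R] (n : ℕ) {G : Type v} [Group G] {H : Type*} [Group H]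
  {Γ : Type w} [Group Γ]

/-- The product `K₋₁(R[H]) × H_{n+1}(Γ) → LKQ (R[G]) n` for commuting homomorphisms `f : H → G`, `κ : Γ → G`:
`([e], z)` is sent to the class of the image of `z` under `γ ↦ 1 + f(e) (κ γ - 1)`. -/
noncomputable def pr (f : H →* G) (κ : Γ →* G) (h : ∀ γ a, f a * κ γ = κ γ * f a) :
    Km1 (MonoidAlgebra R H) →+ (HG Γ n →+ LKQ (MonoidAlgebra R G) n) :=
  lasm n (MonoidAlgebra.mapDomainRingHom R f) ((grpHom R G).comp κ) (grpHom_comm R f κ h)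

theorem lgrp_comm (f : H →* G) (κ : Γ →* G) (h : ∀ γ a, f a * κ γ = κ γ * f a) (γ : Γ)
    (b : (MonoidAlgebra R H)[T;T⁻¹]) : lau (MonoidAlgebra.mapDomainRingHom R f) b *
      (((lgrp R G).comp κ) γ : (MonoidAlgebra R G)[T;T⁻¹]) =
      ((lgrp R G).comp κ) γ * lau (MonoidAlgebra.mapDomainRingHom R f) b :=
  lau_comm (MonoidAlgebra.mapDomainRingHom R f) ((grpHom R G).comp κ) (grpHom_comm R f κ h) γ b

theorem pr_comp {H' : Type*} [Group H'] (f : H →* G) (ψ : H' →* H) (κ : Γ →* G)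
    (h : ∀ γ a, f a * κ γ = κ γ * f a) (h' : ∀ γ a, (f.comp ψ) a * κ γ = κ γ * (f.comp ψ) a)
    (x : Km1 (MonoidAlgebra R H')) (z : HG Γ n) :
    pr R n f κ h (ind R ψ x) z = pr R n (f.comp ψ) κ h' x z := by
  have e : (MonoidAlgebra.mapDomainRingHom R f).comp (MonoidAlgebra.mapDomainRingHom R ψ) =
      MonoidAlgebra.mapDomainRingHom R (f.comp ψ) := (MonoidAlgebra.mapDomainRingHom_comp _ _).symm
  have hc : ∀ γ c, ((MonoidAlgebra.mapDomainRingHom R f).comp
      (MonoidAlgebra.mapDomainRingHom R ψ)) c * (((grpHom R G).comp κ) γ : MonoidAlgebra R G) =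
      ((grpHom R G).comp κ) γ * ((MonoidAlgebra.mapDomainRingHom R f).comp
        (MonoidAlgebra.mapDomainRingHom R ψ)) c := by
    rw [e]
    exact grpHom_comm R (f.comp ψ) κ h'
  exact (lasm_comp _ _ _ _ hc x z).trans (lasm_congr e rfl _ _ x z)

theorem pr_map {Γ' : Type*} [Group Γ'] (f : H →* G) (κ : Γ →* G) (ψ : Γ' →* Γ)
    (h : ∀ γ a, f a * κ γ = κ γ * f a) (h' : ∀ γ a, f a * (κ.comp ψ) γ = (κ.comp ψ) γ * f a)
    (x : Km1 (MonoidAlgebra R H)) (z : HG Γ' n) :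
    pr R n f κ h x (HG.map n ψ z) = pr R n f (κ.comp ψ) h' x z :=
  lasm_map _ ((grpHom R G).comp κ) _ ψ (grpHom_comm R f (κ.comp ψ) h') x z

theorem pr_conj (f f' : H →* G) (κ κ' : Γ →* G) (g : G) (h : ∀ γ a, f a * κ γ = κ γ * f a)
    (h' : ∀ γ a, f' a * κ' γ = κ' γ * f' a) (hf : ∀ a, f' a = g * f a * g⁻¹)
    (hκ : ∀ γ, κ' γ = g * κ γ * g⁻¹) (x : Km1 (MonoidAlgebra R H)) (z : HG Γ n) :
    pr R n f' κ' h' x z = pr R n f κ h x z := by
  have ginv : (((grpHom R G g)⁻¹ : (MonoidAlgebra R G)ˣ) : MonoidAlgebra R G) =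
      MonoidAlgebra.single g⁻¹ 1 := by
    rw [← map_inv]
    rfl
  refine lasm_conj _ _ _ _ (grpHom R G g) _ _ (fun b => ?_) (fun γ => ?_) x z
  · rw [ginv]
    induction b using MonoidAlgebra.induction_linear with
    | zero => simp
    | add a b ha hb => rw [map_add, ha, hb, map_add, mul_add, add_mul]
    | single a r =>
      change MonoidAlgebra.mapDomain f' (MonoidAlgebra.single a r) = MonoidAlgebra.single g 1 *
        MonoidAlgebra.mapDomain f (MonoidAlgebra.single a r) * MonoidAlgebra.single g⁻¹ 1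
      rw [MonoidAlgebra.mapDomain_single, MonoidAlgebra.mapDomain_single,
        MonoidAlgebra.single_mul_single, MonoidAlgebra.single_mul_single, hf, mul_one, one_mul]
  · rw [MonoidHom.comp_apply, MonoidHom.comp_apply, hκ, map_mul, map_mul, map_inv]

/-- naturality in the coefficients -/
theorem map_pr {S : Type*} [Ring S] (θ : R →+* S) (f : H →* G) (κ : Γ →* G)
    (h : ∀ γ a, f a * κ γ = κ γ * f a) (x : Km1 (MonoidAlgebra R H)) (z : HG Γ n) :
    LKQ.map (MonoidAlgebra.mapRingHom G θ) (pr R n f κ h x z) =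
      pr S n f κ h (Pool.Agent.H95.KM.Km1.map (MonoidAlgebra.mapRingHom H θ) x) z := by
  have e : (Units.map ((MonoidAlgebra.mapRingHom G θ : MonoidAlgebra R G →+* MonoidAlgebra S G) :
      MonoidAlgebra R G →* MonoidAlgebra S G)).comp ((grpHom R G).comp κ) =
      (grpHom S G).comp κ := by
    apply MonoidHom.ext
    intro γ
    apply Units.ext
    change MonoidAlgebra.mapRingHom G θ (MonoidAlgebra.single (κ γ) 1) =
      MonoidAlgebra.single (κ γ) 1
    rw [MonoidAlgebra.mapRingHom_single, map_one]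
  have e2 : (MonoidAlgebra.mapRingHom G θ).comp (MonoidAlgebra.mapDomainRingHom R f) =
      (MonoidAlgebra.mapDomainRingHom S f).comp (MonoidAlgebra.mapRingHom H θ) :=
    MonoidAlgebra.mapRingHom_comp_mapDomainRingHom _ _
  have hc : ∀ γ b, ((MonoidAlgebra.mapDomainRingHom S f).comp (MonoidAlgebra.mapRingHom H θ)) b *
      (((grpHom S G).comp κ) γ : MonoidAlgebra S G) = ((grpHom S G).comp κ) γ *
        ((MonoidAlgebra.mapDomainRingHom S f).comp (MonoidAlgebra.mapRingHom H θ)) b :=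
    fun γ b => grpHom_comm S f κ h γ _
  have hc' : ∀ γ b, ((MonoidAlgebra.mapRingHom G θ).comp (MonoidAlgebra.mapDomainRingHom R f)) b *
      (((Units.map ((MonoidAlgebra.mapRingHom G θ : MonoidAlgebra R G →+* MonoidAlgebra S G) :
        MonoidAlgebra R G →* MonoidAlgebra S G)).comp ((grpHom R G).comp κ)) γ :
          MonoidAlgebra S G) =
      ((Units.map ((MonoidAlgebra.mapRingHom G θ : MonoidAlgebra R G →+* MonoidAlgebra S G) :
        MonoidAlgebra R G →* MonoidAlgebra S G)).comp ((grpHom R G).comp κ)) γ *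
          ((MonoidAlgebra.mapRingHom G θ).comp (MonoidAlgebra.mapDomainRingHom R f)) b := by
    rw [e, e2]
    exact hc
  exact (map_lasm _ _ _ _ hc' x z).trans ((lasm_congr e2 e _ hc x z).trans
    (lasm_comp _ _ _ _ _ x z).symm)

end pr

section assembly

variable (R : Type u) [Ring R] (n : ℕ) (G : Type v) [Group G]

/-- **The assembly map on the `K₋₁`-part.** -/
noncomputable def asmKm1 : HnKm1 R G n →+ LKQ (MonoidAlgebra R G) n :=
  HnKm1.lift (fun F => pr R n F.1.subtype (Subgroup.centralizer (F.1 : Set G)).subtype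
      (Pool.Agent.H71.FQ.cent_comm F.1))
    (fun F F' g h x z => by
      have h1 : ∀ (γ : Subgroup.centralizer (F'.1 : Set G)) (a : F.1),
          (F'.1.subtype.comp (conjHom g F.1 F'.1 h)) a *
            (Subgroup.centralizer (F'.1 : Set G)).subtype γ =
          (Subgroup.centralizer (F'.1 : Set G)).subtype γ *
            (F'.1.subtype.comp (conjHom g F.1 F'.1 h)) a := fun γ a =>
        Pool.Agent.H71.FQ.cent_comm F'.1 γ (conjHom g F.1 F'.1 h a)
      have h2 : ∀ (γ : Subgroup.centralizer (F'.1 : Set G)) (a : F.1),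
          F.1.subtype a * ((Subgroup.centralizer (F.1 : Set G)).subtype.comp
            (centConj g F.1 F'.1 h)) γ =
          ((Subgroup.centralizer (F.1 : Set G)).subtype.comp (centConj g F.1 F'.1 h)) γ *
            F.1.subtype a := fun γ a =>
        Pool.Agent.H71.FQ.cent_comm F.1 (centConj g F.1 F'.1 h γ) a
      rw [pr_comp R n F'.1.subtype (conjHom g F.1 F'.1 h) _
          (Pool.Agent.H71.FQ.cent_comm F'.1) h1,
        pr_map R n F.1.subtype _ (centConj g F.1 F'.1 h) (Pool.Agent.H71.FQ.cent_comm F.1) h2]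
      apply pr_conj R n _ _ _ _ g
      · intro a
        rfl
      · intro γ
        change (γ : G) = g * (g⁻¹ * (γ : G) * g) * g⁻¹
        group)

theorem asmKm1_sym (F : FamSub G FinSub) (x : Km1 (MonoidAlgebra R F.1))
    (z : HG (Subgroup.centralizer (F.1 : Set G)) n) :
    asmKm1 R n G (sym F x z) = pr R n F.1.subtype
      (Subgroup.centralizer (F.1 : Set G)).subtype (Pool.Agent.H71.FQ.cent_comm F.1) x z :=
  HnKm1.lift_sym _ _ F x z

end assembly

end Pool.Agent.H16.KN
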