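import Pool.Agent.H13.TFQ.H95.KM.DetOne
import Pool.Agent.H13.TFQ.M100
import Pool.Agent.H13.TFQ.M11
import Pool.Agent.H13.TFQ.M88
import Pool.Agent.H13.TFQ.M97

/-!
# Project KN: evaluation of the prism of a unit of `B[C][T;T⁻¹]`

`wq c φ C d` is the cochain of `Z_G(C)` given by the transport along `c ~ d` (`trc` of `KN/LinDN.lean`).

PROOFS.
`lc_wq`: `trc`, `HG.map_mk`, `HG.ev_mk`, `lc_push`.
`TT_unit`: the letters are `κ (y_j⁻¹ y_{j+1})` (`j ≤ n`), `V`, `V⁻¹ κ (y_{n+1}⁻¹ y_0)`.  Both sides are bilinear in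
`(v, v')` if the letters `V`, `V⁻¹ κ` are replaced by the `1 × 1` matrices `gz v`, `gz v' * κ` (prove this general form
by linearity, e.g. from the explicit formula `TM_eq` with a common support); for `v = T ^ k a`, `v' = T ^ l b` there
is one word, its product is `(a b, k + l)` (`C` commutes with `Z_G(C)`); it is conjugate to `(c, 1)` iff `k + l = 0` and
`a b ~ c`; for `d = a b ~ c` take `u = (cx π d)⁻¹`, `π u = 1`, `u d u⁻¹ = c` (`wv_eq`); the first `n + 2` vertices are
`u y_0⁻¹ y_j = (ζ_0⁻¹ ζ_j) u` with `ζ_j = u y_j u⁻¹ = cnj c (cx π d) C _ (y_j)`, so `π` of them is `ζ_0⁻¹ ζ_j`, and `φ` is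
invariant; the difference of the degrees of the last two vertices is `k`.
`TQ_unit`: `TQ_prism`, `TT_unit`, `lc_wq`.
`der_coeff_vL`: `der_vL` of `KM/DetOne.lean` for `-k`, `oneChi`.
-/

set_option autoImplicit false

open Matrix
open scoped LaurentPolynomial

universe u v w

namespace Pool.Agent.H16.KN

open Pool.Agent.H71.FQ
open Pool.Agent.H95.KM (lau der oneChi vL cst cst_apply der_vL)
open Pool.Agent.H71.FJ (K0 K0.mk IdemMat)
open Pool.Agent.H71.DB (xc xc_spec)

section tools

variable {G : Type u} [Group G] {B : Type v} [CommRing B] {K : ℕ}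

private theorem ub_add_at {N : ℕ} {c : G} {φ : (Fin K → G) → B} (hφ : CI c φ) (j0 : Fin K)
    (b b1 b2 : Fin K → Matrix (Fin N) (Fin N) (MonoidAlgebra B G))
    (h1 : ∀ j, j ≠ j0 → b j = b1 j) (h2 : ∀ j, j ≠ j0 → b j = b2 j) (h0 : b j0 = b1 j0 + b2 j0) :
    TM c φ b = TM c φ b1 + TM c φ b2 := by
  classical
  obtain ⟨S, hS⟩ := exists_supp b
  obtain ⟨S1, hS1⟩ := exists_supp b1
  obtain ⟨S2, hS2⟩ := exists_supp b2
  rw [TM_eq hφ b (S ∪ S1 ∪ S2) fun j x hx => Finset.mem_union_left _ (Finset.mem_union_left _ (hS j x hx)),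
    TM_eq hφ b1 (S ∪ S1 ∪ S2) fun j x hx =>
      Finset.mem_union_left _ (Finset.mem_union_right _ (hS1 j x hx)),
    TM_eq hφ b2 (S ∪ S1 ∪ S2) fun j x hx => Finset.mem_union_right _ (hS2 j x hx),
    ← Finset.sum_add_distrib]
  refine Finset.sum_congr rfl fun g _ => ?_
  rw [← add_mul, ← Matrix.trace_add]
  congr 2
  have e1 : (fun j => cof (b1 j) (g j : G)) =
      Function.update (fun j => cof (b j) (g j : G)) j0 (cof (b1 j0) (g j0 : G)) := by
    funext j
    by_cases hj : j = j0
    · subst hj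
      rw [Function.update_self]
    · rw [Function.update_of_ne hj, h1 j hj]
  have e2 : (fun j => cof (b2 j) (g j : G)) =
      Function.update (fun j => cof (b j) (g j : G)) j0 (cof (b2 j0) (g j0 : G)) := by
    funext j
    by_cases hj : j = j0
    · subst hj
      rw [Function.update_self]
    · rw [Function.update_of_ne hj, h2 j hj]
  have e0 : (fun j => cof (b j) (g j : G)) =
      Function.update (fun j => cof (b j) (g j : G)) j0
        (cof (b1 j0) (g j0 : G) + cof (b2 j0) (g j0 : G)) := by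
    have : cof (b1 j0) (g j0 : G) + cof (b2 j0) (g j0 : G) = cof (b j0) (g j0 : G) := by
      rw [h0]
      ext i i'
      rfl
    rw [this, Function.update_eq_self]
  have h := MultilinearMap.map_update_add
    (MultilinearMap.mkPiAlgebraFin ℕ K (Matrix (Fin N) (Fin N) B))
    (fun j => cof (b j) (g j : G)) j0 (cof (b1 j0) (g j0 : G)) (cof (b2 j0) (g j0 : G))
  simp only [MultilinearMap.mkPiAlgebraFin_apply] at h
  rw [← e0, ← e1, ← e2] at h
  exact h

/-- the `1 × 1` matrix -/
def ub_m {A : Type*} (a : A) : Matrix (Fin 1) (Fin 1) A := fun _ _ => a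

private theorem ub_trace {n : ℕ} (r : Fin n → B) :
    ((List.ofFn fun j => ub_m (r j)).prod).trace = (List.ofFn r).prod := by
  have h : ∀ n (r : Fin n → B), (List.ofFn fun j => ub_m (r j)).prod = ub_m (List.ofFn r).prod := by
    intro n
    induction n with
    | zero =>
      intro r
      rw [List.ofFn_zero, List.ofFn_zero, List.prod_nil, List.prod_nil]
      ext i j
      rw [Subsingleton.elim i j, Matrix.one_apply_eq]
      rfl
    | succ n ih =>
      intro r
      rw [List.ofFn_succ, List.ofFn_succ, List.prod_cons, List.prod_cons, ih]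
      ext i j
      rw [Matrix.mul_apply, Fin.sum_univ_one]
      rfl
  rw [h, Matrix.trace_fin_one]
  rfl

private theorem ub_mono {c : G} {φ : (Fin K → G) → B} (hφ : CI c φ) (h : Fin K → G) (r : Fin K → B) :
    TM c φ (fun j => ub_m (MonoidAlgebra.single (h j) (r j))) =
      (List.ofFn r).prod * wv c φ h := by
  classical
  rw [TM_eq hφ _ (Finset.univ.image h)]
  · rw [Finset.sum_eq_single (fun j => (⟨h j, Finset.mem_image_of_mem h (Finset.mem_univ j)⟩ :
      (Finset.univ.image h : Finset G)))]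
    · congr 1
      rw [← ub_trace]
      congr 3
      funext j
      ext i i'
      show (MonoidAlgebra.single (h j) (r j) : MonoidAlgebra B G).coeff (h j) = r j
      rw [MonoidAlgebra.coeff_single, Finsupp.single_eq_same]
    · intro g _ hg
      obtain ⟨j, hj⟩ := Function.ne_iff.1 hg
      rw [List.prod_eq_zero, Matrix.trace_zero, zero_mul]
      rw [List.mem_ofFn]
      refine ⟨j, ?_⟩
      ext i i'
      show (MonoidAlgebra.single (h j) (r j) : MonoidAlgebra B G).coeff (g j : G) = 0
      rw [MonoidAlgebra.coeff_single, Finsupp.single_eq_of_ne]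
      intro h'
      exact hj (Subtype.ext h')
    · intro hn
      exact absurd (Finset.mem_univ _) hn
  · intro j x hx
    have : x = h j := by
      by_contra hne
      apply hx
      ext i i'
      show (MonoidAlgebra.single (h j) (r j) : MonoidAlgebra B G).coeff x = 0
      rw [MonoidAlgebra.coeff_single, Finsupp.single_eq_of_ne hne]
    rw [this]
    exact Finset.mem_image_of_mem h (Finset.mem_univ j)

private theorem ub_tel {Γ : Type*} [Group Γ] {m : ℕ} (y : Fin (m + 1) → Γ) :
    (List.ofFn fun i : Fin m => (y i.castSucc)⁻¹ * y i.succ).prod = (y 0)⁻¹ * y (Fin.last m) := by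
  induction m with
  | zero =>
    rw [List.ofFn_zero, List.prod_nil]
    exact (inv_mul_cancel (y 0)).symm
  | succ m ih =>
    rw [List.ofFn_succ', List.concat_eq_append, List.prod_append, List.prod_singleton]
    have h := ih fun i => y i.castSucc
    simp only [Fin.succ_castSucc]
    rw [h, Fin.succ_last]
    group
    rfl

private theorem ub_vtx_succ (u : G) (g : Fin K → G) (j t : Fin K)
    (h : (t : ℕ) = (j : ℕ) + 1) : vtx u g t = vtx u g j * g j := by
  unfold vtx
  rw [h, List.take_succ_eq_append_getElem (by rw [List.length_ofFn]; exact j.2), List.prod_append,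
    List.prod_singleton, List.getElem_ofFn, mul_assoc]

private theorem ub_prod_last {M : Type*} [Monoid M] {m : ℕ} (g : Fin (m + 1) → M) :
    (List.ofFn g).prod = (List.ofFn fun j : Fin m => g j.castSucc).prod * g (Fin.last m) := by
  rw [List.ofFn_succ', List.concat_eq_append, List.prod_append, List.prod_singleton]

end tools

section

variable {G : Type u} [Group G] {B : Type} [CommRing B] {n : ℕ} {c : G}
  {π : G → Subgroup.centralizer ({c} : Set G)}
  {φ : (Fin (n + 2) → Subgroup.centralizer ({c} : Set G)) → B}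

/-- the conjugator with `π = 1` -/
noncomputable def cx (π : G → Subgroup.centralizer ({c} : Set G)) (d : G) : G :=
  (((π (xc c d)⁻¹)⁻¹ : Subgroup.centralizer ({c} : Set G)) * (xc c d)⁻¹ : G)⁻¹

theorem cx_spec (π : G → Subgroup.centralizer ({c} : Set G)) {d : G} (h : IsConj c d) :
    cx π d * c * (cx π d)⁻¹ = d := by
  set ζ : Subgroup.centralizer ({c} : Set G) := (π (xc c d)⁻¹)⁻¹ with hζ
  have h1 : (ζ : G)⁻¹ * c * ζ = c := by
    have h2 := Subgroup.mem_centralizer_iff.1 ζ.2 c rfl
    rw [mul_assoc, h2, inv_mul_cancel_left]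
  have h3 : cx π d = xc c d * (ζ : G)⁻¹ := by
    rw [cx, ← hζ, _root_.mul_inv_rev, inv_inv]
  rw [h3, _root_.mul_inv_rev, inv_inv]
  calc xc c d * (ζ : G)⁻¹ * c * (ζ * (xc c d)⁻¹) = xc c d * ((ζ : G)⁻¹ * c * ζ) * (xc c d)⁻¹ := by group
    _ = d := by rw [h1, xc_spec c h]

theorem cx_mem (π : G → Subgroup.centralizer ({c} : Set G)) (C : Subgroup G) (d : C)
    (h : IsConj c (d : G)) : cx π (d : G) * c * (cx π (d : G))⁻¹ ∈ C := by
  rw [cx_spec π h]
  exact d.2

theorem pi_cx (hπ : ∀ (z : Subgroup.centralizer ({c} : Set G)) (g : G), π (z * g) = z * π g)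
    (d : G) : π (cx π d)⁻¹ = 1 := by
  rw [cx, inv_inv, hπ, inv_mul_cancel]

open Classical in
/-- the transported cochain -/
noncomputable def wq (π : G → Subgroup.centralizer ({c} : Set G))
    (φ : (Fin (n + 2) → Subgroup.centralizer ({c} : Set G)) → B) (C : Subgroup G) (d : C)
    (y : Fin (n + 2) → Subgroup.centralizer (C : Set G)) : B :=
  if h : IsConj c (d : G) then φ fun j => cnj c (cx π (d : G)) C (cx_mem π C d h) (y j) else 0

theorem lc_wq (hφ : IsCoc (Subgroup.centralizer ({c} : Set G)) n φ) (C : Subgroup G) (d : C)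
    (z : cyc (Subgroup.centralizer (C : Set G)) n) :
    Finsupp.linearCombination ℤ (wq π φ C d) (z : Cx ℤ _ (n + 1)) =
      HG.ev hφ (trc n c C d (HG.mk z)) := by
  by_cases h : IsConj c (d : G)
  · rw [trc_eq (cx π (d : G)) (cx_spec π h) (cx_mem π C d h), HG.map_mk, HG.ev_mk, lc_push]
    congr 2
    funext y
    rw [wq, dif_pos h]
  · rw [trc_of_not h, AddMonoidHom.zero_apply, map_zero]
    have h1 : wq π φ C d = fun _ => 0 := by
      funext y
      rw [wq, dif_neg h]
    rw [h1]
    induction (z : Cx ℤ (Subgroup.centralizer (C : Set G)) (n + 1)) using Finsupp.induction_linear with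
    | zero => rw [map_zero]
    | add a b ha hb => rw [map_add, ha, hb, add_zero]
    | single x r => rw [Finsupp.linearCombination_single, smul_zero]

def ub_l {α : Type*} (s : Fin (n + 1) → α) (a b : α) : Fin (n + 3) → α :=
  Fin.snoc (α := fun _ => α) (Fin.snoc (α := fun _ => α) s a) b

private theorem ub_l_cc {α : Type*} (s : Fin (n + 1) → α) (a b : α) (i : Fin (n + 1)) :
    ub_l s a b i.castSucc.castSucc = s i := by
  rw [ub_l, Fin.snoc_castSucc, Fin.snoc_castSucc]

private theorem ub_l_lc {α : Type*} (s : Fin (n + 1) → α) (a b : α) :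
    ub_l s a b (Fin.last (n + 1)).castSucc = a := by
  rw [ub_l, Fin.snoc_castSucc, Fin.snoc_last]

private theorem ub_l_l {α : Type*} (s : Fin (n + 1) → α) (a b : α) :
    ub_l s a b (Fin.last (n + 2)) = b := by
  rw [ub_l, Fin.snoc_last]

theorem ub_l_ext {α : Type*} (f : Fin (n + 3) → α) (s : Fin (n + 1) → α) (a b : α)
    (h1 : ∀ i : Fin (n + 1), f i.castSucc.castSucc = s i) (h2 : f (Fin.last (n + 1)).castSucc = a)
    (h3 : f (Fin.last (n + 2)) = b) : f = ub_l s a b := by
  funext j
  refine Fin.lastCases ?_ (fun j => ?_) j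
  · rw [h3, ub_l_l]
  · refine Fin.lastCases ?_ (fun j => ?_) j
    · rw [h2, ub_l_lc]
    · rw [h1, ub_l_cc]

/-- the elements of the centralizer in `G × ℤ` -/
def ub_i (C : Subgroup G) :
    Subgroup.centralizer (C : Set G) →* G × Multiplicative ℤ :=
  (MonoidHom.inl G (Multiplicative ℤ)).comp (Subgroup.centralizer (C : Set G)).subtype

private theorem ub_i_comm (C : Subgroup G) (z : Subgroup.centralizer (C : Set G)) (a : C)
    (t : Multiplicative ℤ) : ub_i C z * ((a : G), t) = ((a : G), t) * ub_i C z :=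
  Prod.ext (cent_comm C z a).symm (mul_comm _ _)

/-- the word -/
private def ub_h (C : Subgroup G) (y : Fin (n + 2) → Subgroup.centralizer (C : Set G)) (a b : C)
    (k l : ℤ) : Fin (n + 3) → G × Multiplicative ℤ :=
  ub_l (fun i => (ub_i C (y i.castSucc))⁻¹ * ub_i C (y i.succ)) ((a : G), Multiplicative.ofAdd k)
    (((b : G), Multiplicative.ofAdd l) * ((ub_i C (y (Fin.last (n + 1))))⁻¹ * ub_i C (y 0)))

private theorem ub_prod (C : Subgroup G) (y : Fin (n + 2) → Subgroup.centralizer (C : Set G))
    (a b : C) (k l : ℤ) :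
    (List.ofFn (ub_h C y a b k l)).prod = (((a * b : C) : G), Multiplicative.ofAdd (k + l)) := by
  rw [ub_prod_last, ub_prod_last]
  simp only [ub_h, ub_l_cc, ub_l_lc, ub_l_l]
  rw [ub_tel fun j => ub_i C (y j)]
  have h1 := ub_i_comm C (y (Fin.last (n + 1))) a (Multiplicative.ofAdd k)
  have h2 := ub_i_comm C (y (Fin.last (n + 1))) b (Multiplicative.ofAdd l)
  have h3 := ub_i_comm C (y 0) (a * b) (Multiplicative.ofAdd (k + l))
  have h4 : (((a * b : C) : G), Multiplicative.ofAdd (k + l)) =
      ((a : G), Multiplicative.ofAdd k) * ((b : G), Multiplicative.ofAdd l) := rfl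
  rw [h4] at h3 ⊢
  generalize ub_i C (y (Fin.last (n + 1))) = z at h1 h2 ⊢
  generalize ub_i C (y 0) = w at h3 ⊢
  generalize ((a : G), Multiplicative.ofAdd k) = α at h1 h3 ⊢
  generalize ((b : G), Multiplicative.ofAdd l) = β at h2 h3 ⊢
  calc w⁻¹ * z * α * (β * (z⁻¹ * w)) = w⁻¹ * (z * α) * β * z⁻¹ * w := by group
    _ = w⁻¹ * α * (z * β) * z⁻¹ * w := by rw [h1]; group
    _ = w⁻¹ * (α * β * w) := by rw [h2]; group
    _ = α * β := by rw [← h3]; group

private theorem ub_vtx (C : Subgroup G) (y : Fin (n + 2) → Subgroup.centralizer (C : Set G))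
    (a b : C) (k l : ℤ) (u : G × Multiplicative ℤ) (j : Fin (n + 2)) :
    vtx u (ub_h C y a b k l) j.castSucc = u * ((ub_i C (y 0))⁻¹ * ub_i C (y j)) := by
  induction j using Fin.induction with
  | zero =>
    rw [inv_mul_cancel, mul_one]
    show u * ((List.ofFn (ub_h C y a b k l)).take 0).prod = u
    rw [List.take_zero, List.prod_nil, mul_one]
  | succ i ih =>
    rw [ub_vtx_succ u (ub_h C y a b k l) i.castSucc.castSucc i.succ.castSucc rfl, ih]
    rw [ub_h, ub_l_cc]
    group

private theorem ub_wv (hπ : ∀ (z : Subgroup.centralizer ({c} : Set G)) (g : G), π (z * g) = z * π g)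
    (hφ : IsCoc (Subgroup.centralizer ({c} : Set G)) n φ) (C : Subgroup G)
    (y : Fin (n + 2) → Subgroup.centralizer (C : Set G)) (a b : C) (k l : ℤ) :
    wv ((c, 1) : G × Multiplicative ℤ) (fL π φ) (ub_h C y a b k l) =
      if k + l = 0 then (k : B) * wq π φ C (a * b) y else 0 := by
  by_cases hkl : k + l = 0
  · rw [if_pos hkl]
    by_cases hc : IsConj c ((a * b : C) : G)
    · have hx := cx_spec π hc
      have hm := cx_mem π C (a * b) hc
      have hw : wq π φ C (a * b) y = φ fun j => cnj c (cx π ((a * b : C) : G)) C hm (y j) :=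
        dif_pos hc
      have hp := pi_cx hπ ((a * b : C) : G)
      rw [hw]
      generalize hX : cx π ((a * b : C) : G) = x at hx hm hp ⊢
      have hu : ((x⁻¹, 1) : G × Multiplicative ℤ) * (List.ofFn (ub_h C y a b k l)).prod *
            ((x⁻¹, 1) : G × Multiplicative ℤ)⁻¹ = (c, 1) := by
        rw [ub_prod, hkl]
        refine Prod.ext ?_ ?_
        · show x⁻¹ * ((a * b : C) : G) * (x⁻¹)⁻¹ = c
          rw [← hx]
          group
        · show (1 : Multiplicative ℤ) * Multiplicative.ofAdd 0 * 1⁻¹ = 1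
          rw [ofAdd_zero, inv_one, mul_one, mul_one]
      rw [wv_eq (CI_fL hπ hφ.1) _ _ hu]
      show (φ fun j : Fin (n + 2) => π (vtx ((x⁻¹, 1) : G × Multiplicative ℤ) (ub_h C y a b k l) j.castSucc).1) *
        ldg B (vtx ((x⁻¹, 1) : G × Multiplicative ℤ) (ub_h C y a b k l) (Fin.last (n + 1)).castSucc)
          (vtx ((x⁻¹, 1) : G × Multiplicative ℤ) (ub_h C y a b k l) (Fin.last (n + 2))) = _
      have h1 : (fun j : Fin (n + 2) =>
          π (vtx ((x⁻¹, 1) : G × Multiplicative ℤ) (ub_h C y a b k l) j.castSucc).1) =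
          fun j => (cnj c x C hm (y 0))⁻¹ * cnj c x C hm (y j) := by
        funext j
        rw [ub_vtx]
        have h2 : (((x⁻¹, 1) : G × Multiplicative ℤ) * ((ub_i C (y 0))⁻¹ * ub_i C (y j))).1 =
            (((cnj c x C hm (y 0))⁻¹ * cnj c x C hm (y j) : Subgroup.centralizer ({c} : Set G)) : G) *
              x⁻¹ := by
          show x⁻¹ * ((y 0 : G)⁻¹ * (y j : G)) = (x⁻¹ * (y 0 : G) * x)⁻¹ * (x⁻¹ * (y j : G) * x) * x⁻¹
          group
        rw [h2, hπ, hp, mul_one]
      rw [h1, hφ.1, mul_comm]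
      congr 1
      rw [ub_vtx_succ ((x⁻¹, 1) : G × Multiplicative ℤ) (ub_h C y a b k l)
        (Fin.last (n + 1)).castSucc (Fin.last (n + 2)) rfl]
      show ((dg _ - dg _ : ℤ) : B) = (k : B)
      have h3 : ub_h C y a b k l (Fin.last (n + 1)).castSucc = ((a : G), Multiplicative.ofAdd k) :=
        ub_l_lc _ _ _
      rw [h3]
      congr 1
      generalize vtx ((x⁻¹, 1) : G × Multiplicative ℤ) (ub_h C y a b k l)
        (Fin.last (n + 1)).castSucc = z
      show dg z + k - dg z = k
      ring
    · have hw : wq π φ C (a * b) y = 0 := dif_neg hc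
      rw [hw, mul_zero]
      refine wv_zero _ _ _ fun u hu => hc ?_
      rw [ub_prod] at hu
      have h2 := congrArg Prod.fst hu
      refine (isConj_iff.2 ⟨u.1, ?_⟩ : IsConj ((a * b : C) : G) c).symm
      exact h2
  · rw [if_neg hkl]
    refine wv_zero _ _ _ fun u hu => hkl ?_
    rw [ub_prod] at hu
    have h2 : u.2 * Multiplicative.ofAdd (k + l) * u.2⁻¹ = 1 := congrArg Prod.snd hu
    rw [mul_comm u.2, mul_assoc, mul_inv_cancel, mul_one] at h2
    exact h2

/-- the bilinear form -/
private noncomputable def ub_F (π : G → Subgroup.centralizer ({c} : Set G))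
    (φ : (Fin (n + 2) → Subgroup.centralizer ({c} : Set G)) → B) (C : Subgroup G)
    (y : Fin (n + 2) → Subgroup.centralizer (C : Set G)) (v v' : (MonoidAlgebra B C)[T;T⁻¹]) : B :=
  TM ((c, 1) : G × Multiplicative ℤ) (fL π φ)
    (ub_l (fun i => ub_m (MonoidAlgebra.single
        ((ub_i C (y i.castSucc))⁻¹ * ub_i C (y i.succ)) (1 : B))) (ub_m (gz B C.subtype v))
        (ub_m (gz B C.subtype v' *
          MonoidAlgebra.single ((ub_i C (y (Fin.last (n + 1))))⁻¹ * ub_i C (y 0)) (1 : B))))

private theorem ub_cases {P : Fin (n + 3) → Prop} (h1 : ∀ i : Fin (n + 1), P i.castSucc.castSucc)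
    (h2 : P (Fin.last (n + 1)).castSucc) (h3 : P (Fin.last (n + 2))) (j : Fin (n + 3)) : P j := by
  refine Fin.lastCases h3 (fun j => ?_) j
  exact Fin.lastCases h2 h1 j

private theorem ub_F_add (hπ : ∀ (z : Subgroup.centralizer ({c} : Set G)) (g : G), π (z * g) = z * π g)
    (hφ : IsCoc (Subgroup.centralizer ({c} : Set G)) n φ) (C : Subgroup G)
    (y : Fin (n + 2) → Subgroup.centralizer (C : Set G)) (v w v' : (MonoidAlgebra B C)[T;T⁻¹]) :
    ub_F π φ C y (v + w) v' = ub_F π φ C y v v' + ub_F π φ C y w v' := by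
  unfold ub_F
  refine ub_add_at (CI_fL hπ hφ.1) (Fin.last (n + 1)).castSucc _ _ _ ?_ ?_ ?_
  · refine ub_cases ?_ ?_ ?_
    · intro i _
      rw [ub_l_cc, ub_l_cc]
    · intro h
      exact absurd rfl h
    · intro _
      rw [ub_l_l, ub_l_l]
  · refine ub_cases ?_ ?_ ?_
    · intro i _
      rw [ub_l_cc, ub_l_cc]
    · intro h
      exact absurd rfl h
    · intro _
      rw [ub_l_l, ub_l_l]
  · rw [ub_l_lc, ub_l_lc, ub_l_lc, map_add]
    rfl

private theorem ub_F_add' (hπ : ∀ (z : Subgroup.centralizer ({c} : Set G)) (g : G), π (z * g) = z * π g)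
    (hφ : IsCoc (Subgroup.centralizer ({c} : Set G)) n φ) (C : Subgroup G)
    (y : Fin (n + 2) → Subgroup.centralizer (C : Set G)) (v v' w' : (MonoidAlgebra B C)[T;T⁻¹]) :
    ub_F π φ C y v (v' + w') = ub_F π φ C y v v' + ub_F π φ C y v w' := by
  unfold ub_F
  refine ub_add_at (CI_fL hπ hφ.1) (Fin.last (n + 2)) _ _ _ ?_ ?_ ?_
  · refine ub_cases ?_ ?_ ?_
    · intro i _
      rw [ub_l_cc, ub_l_cc]
    · intro _
      rw [ub_l_lc, ub_l_lc]
    · intro h
      exact absurd rfl h
  · refine ub_cases ?_ ?_ ?_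
    · intro i _
      rw [ub_l_cc, ub_l_cc]
    · intro _
      rw [ub_l_lc, ub_l_lc]
    · intro h
      exact absurd rfl h
  · rw [ub_l_l, ub_l_l, ub_l_l, map_add, add_mul]
    rfl

private theorem ub_F_single (hπ : ∀ (z : Subgroup.centralizer ({c} : Set G)) (g : G), π (z * g) = z * π g)
    (hφ : IsCoc (Subgroup.centralizer ({c} : Set G)) n φ) (C : Subgroup G)
    (y : Fin (n + 2) → Subgroup.centralizer (C : Set G)) (k l : ℤ) (a b : C) (r s : B) :
    ub_F π φ C y (AddMonoidAlgebra.single k (MonoidAlgebra.single a r))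
      (AddMonoidAlgebra.single l (MonoidAlgebra.single b s)) =
      if k + l = 0 then (k : B) * (r * s) * wq π φ C (a * b) y else 0 := by
  unfold ub_F
  have h1 : ub_l (fun i : Fin (n + 1) => ub_m (MonoidAlgebra.single
        ((ub_i C (y i.castSucc))⁻¹ * ub_i C (y i.succ)) (1 : B)))
        (ub_m (gz B C.subtype (AddMonoidAlgebra.single k (MonoidAlgebra.single a r))))
        (ub_m (gz B C.subtype (AddMonoidAlgebra.single l (MonoidAlgebra.single b s)) *
          MonoidAlgebra.single ((ub_i C (y (Fin.last (n + 1))))⁻¹ * ub_i C (y 0)) (1 : B))) =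
      fun j => ub_m (MonoidAlgebra.single (ub_h C y a b k l j) (ub_l (fun _ => (1 : B)) r s j)) := by
    symm
    refine ub_l_ext _ _ _ _ ?_ ?_ ?_
    · intro i
      rw [ub_h, ub_l_cc, ub_l_cc]
    · rw [ub_h, ub_l_lc, ub_l_lc, gz_single]
      rfl
    · rw [ub_h, ub_l_l, ub_l_l, gz_single, MonoidAlgebra.single_mul_single, mul_one]
      rfl
  rw [h1, ub_mono (CI_fL hπ hφ.1), ub_wv hπ hφ, ub_prod_last, ub_prod_last]
  simp only [ub_l_cc, ub_l_lc, ub_l_l]
  rw [List.ofFn_const, List.prod_replicate, one_pow, one_mul]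
  split_ifs
  · ring
  · rw [mul_zero]

private theorem ub_ind {C : Type*} [Group C] {P : (MonoidAlgebra B C)[T;T⁻¹] → Prop} (h0 : P 0)
    (hadd : ∀ x y, P x → P y → P (x + y))
    (h1 : ∀ k a r, P (AddMonoidAlgebra.single k (MonoidAlgebra.single a r)))
    (x : (MonoidAlgebra B C)[T;T⁻¹]) : P x := by
  induction x using AddMonoidAlgebra.induction_linear with
  | zero => exact h0
  | add x y hx hy => exact hadd x y hx hy
  | single k x =>
    induction x using MonoidAlgebra.induction_linear with
    | zero =>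
      rw [AddMonoidAlgebra.single_zero]
      exact h0
    | add x y hx hy =>
      rw [AddMonoidAlgebra.single_add]
      exact hadd _ _ hx hy
    | single a r => exact h1 k a r

theorem ub_F_eq (hπ : ∀ (z : Subgroup.centralizer ({c} : Set G)) (g : G), π (z * g) = z * π g)
    (hφ : IsCoc (Subgroup.centralizer ({c} : Set G)) n φ) (C : Subgroup G) [Fintype C]
    (y : Fin (n + 2) → Subgroup.centralizer (C : Set G)) (v v' : (MonoidAlgebra B C)[T;T⁻¹]) :
    ub_F π φ C y v v' = ∑ d : C, ((der _ v * v').coeff 0).coeff d * wq π φ C d y := by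
  classical
  revert v'
  refine ub_ind (P := fun v => ∀ v', ub_F π φ C y v v' =
    ∑ d : C, ((der _ v * v').coeff 0).coeff d * wq π φ C d y) ?_ ?_ ?_ v
  · intro v'
    have h := ub_F_add hπ hφ C y 0 0 v'
    rw [add_zero, left_eq_add] at h
    rw [h, map_zero (der (MonoidAlgebra B C)), zero_mul]
    symm
    refine Finset.sum_eq_zero fun d _ => ?_
    show (0 : B) * _ = 0
    rw [zero_mul]
  · intro v w hv hw v'
    rw [ub_F_add hπ hφ, hv, hw, ← Finset.sum_add_distrib]
    refine Finset.sum_congr rfl fun d _ => ?_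
    rw [map_add, add_mul, AddMonoidAlgebra.coeff_add, Finsupp.add_apply, MonoidAlgebra.coeff_add,
      Finsupp.add_apply, add_mul]
  · intro k a r v'
    refine ub_ind (P := fun v' => ub_F π φ C y (AddMonoidAlgebra.single k (MonoidAlgebra.single a r)) v' =
      ∑ d : C, ((der _ (AddMonoidAlgebra.single k (MonoidAlgebra.single a r)) * v').coeff 0).coeff d *
        wq π φ C d y) ?_ ?_ ?_ v'
    · have h := ub_F_add' hπ hφ C y (AddMonoidAlgebra.single k (MonoidAlgebra.single a r)) 0 0
      rw [add_zero, left_eq_add] at h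
      rw [h, mul_zero]
      symm
      refine Finset.sum_eq_zero fun d _ => ?_
      show (0 : B) * _ = 0
      rw [zero_mul]
    · intro v w hv hw
      rw [ub_F_add' hπ hφ, hv, hw, ← Finset.sum_add_distrib]
      refine Finset.sum_congr rfl fun d _ => ?_
      rw [mul_add, AddMonoidAlgebra.coeff_add, Finsupp.add_apply, MonoidAlgebra.coeff_add,
        Finsupp.add_apply, add_mul]
    · intro l b s
      rw [ub_F_single hπ hφ, Pool.Agent.H95.KM.der_single, AddMonoidAlgebra.single_mul_single, smul_mul_assoc,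
        MonoidAlgebra.single_mul_single]
      simp only [AddMonoidAlgebra.coeff_single]
      by_cases hkl : k + l = 0
      · rw [if_pos hkl, hkl, Finsupp.single_eq_same, Finset.sum_eq_single (a * b)]
        · rw [MonoidAlgebra.coeff_smul, Finsupp.smul_apply, MonoidAlgebra.coeff_single,
            Finsupp.single_eq_same, zsmul_eq_mul]
        · intro d _ hd
          rw [MonoidAlgebra.coeff_smul, Finsupp.smul_apply, MonoidAlgebra.coeff_single,
            Finsupp.single_eq_of_ne hd, smul_zero, zero_mul]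
        · intro h
          exact absurd (Finset.mem_univ _) h
      · rw [if_neg hkl, Finsupp.single_eq_of_ne (Ne.symm hkl)]
        symm
        refine Finset.sum_eq_zero fun d _ => ?_
        show (0 : B) * _ = 0
        rw [zero_mul]

end

section

variable {O : Type} [CommRing O] [IsDomain O] (N : ℕ) [NeZero N] [HasEnoughRootsOfUnity O N]
  {L : Type} [Field L] [CharZero L] (fL : O →+* L) {C : Type v} [Group C] [Fintype C]
  [Fintype (C →* Oˣ)] (hC : ∀ a b : C, a * b = b * a) (hN : Nat.card C ∣ N)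

include hC hN in
theorem der_coeff_vL (k : (C →* Oˣ) → ℤ) (d : C) :
    ((der _ (vL fL k) * vL fL (-k)).coeff 0).coeff d =
      ∑ χ : C →* Oˣ, (k χ : L) * ((Fintype.card C : L)⁻¹ * fL (((χ d)⁻¹ : Oˣ) : O)) := by
  classical
  have h := der_vL (N := N) fL hC hN (-k)
  rw [neg_neg] at h
  rw [h, cst_apply]
  simp only [Pi.neg_apply, neg_smul, Finset.sum_neg_distrib, neg_neg]
  rw [AddMonoidAlgebra.coeff_single, Finsupp.single_eq_same]
  have h2 : ∀ s : Finset (C →* Oˣ), (∑ χ ∈ s, k χ • oneChi fL χ).coeff d =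
      ∑ χ ∈ s, (k χ : L) * ((Fintype.card C : L)⁻¹ * fL (((χ d)⁻¹ : Oˣ) : O)) := by
    intro s
    induction s using Finset.induction_on with
    | empty => simp
    | insert a s ha ih =>
      rw [Finset.sum_insert ha, Finset.sum_insert ha, MonoidAlgebra.coeff_add, Finsupp.add_apply, ih]
      congr 1
      have h3 : (oneChi fL a).coeff d = (Fintype.card C : L)⁻¹ * fL (((a d)⁻¹ : Oˣ) : O) := by
        rw [oneChi]
        have h4 : ∀ t : Finset C, (∑ e ∈ t, (MonoidAlgebra.single e
            ((Fintype.card C : L)⁻¹ * fL (((a e)⁻¹ : Oˣ) : O)) : MonoidAlgebra L C)).coeff d =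
            if d ∈ t then (Fintype.card C : L)⁻¹ * fL (((a d)⁻¹ : Oˣ) : O) else 0 := by
          intro t
          induction t using Finset.induction_on with
          | empty => simp
          | insert e t he iht =>
            rw [Finset.sum_insert he, MonoidAlgebra.coeff_add, Finsupp.add_apply, iht,
              MonoidAlgebra.coeff_single, Finsupp.single_apply]
            by_cases hde : e = d
            · subst hde
              rw [if_pos rfl, if_neg he, if_pos (Finset.mem_insert_self _ _), add_zero]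
            · rw [if_neg hde, zero_add]
              by_cases hdt : d ∈ t
              · rw [if_pos hdt, if_pos (Finset.mem_insert_of_mem hdt)]
              · rw [if_neg hdt, if_neg]
                intro h5
                rcases Finset.mem_insert.1 h5 with h6 | h6
                · exact hde h6.symm
                · exact hdt h6
        rw [h4, if_pos (Finset.mem_univ d)]
      rw [← h3, MonoidAlgebra.coeff_smul, Finsupp.smul_apply, zsmul_eq_mul]
  exact h2 _

end

end Pool.Agent.H16.KN
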