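import Pool.Agent.H13.TFQ.H16.KN.Cmp
import Pool.Agent.H13.TFQ.M100
import Pool.Agent.H13.TFQ.M97

/-!
# Project KN: the relations

Model of the statement: `rel_two` in `Pool/Agent/H8/KZ/RelD.lean`.

PROOF of `relN`.  `choose` `E i, xA i, yA i` from `exists_triv`; `z i = HG.mk (ζ i)`; `exists_chain` (over `O`) gives `w`.
`Lw = QC.map (mapRingHom (G × ℤ) fL) w`; for `R = O, Om, L` let `syC R ..` be the chains of the symbols (`map_syC`).
(1) Over `L`: `WL = Lw + ∑ i, PM (gz L ..) (gk L ..) _ ((E i).map (lau ..fL)) (xA i) (yA i) .. (ζ i)` has `qbd WL ∈ QC0 G L` by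
    `qbd_PM`, `QC0_map`, `QC.map_bd` and `const_mem` (`ch N (push (fun _ => 1) ζ) ∈ QC0`).  `exists_class` (for a fixed `π` from
    `exists_pi c`) gives `r, ω, a`.  Take `w s = (-1) ^ k * ω s` (`k` the degree).
(2) Let `m, Om, f, j, p, ..` be given, `xB i, yB i` from `exists_triv`.  `WB = QC.map (mapRingHom .. f) w +
    ∑ i, PM (gz Om ..) .. ((E i).map (lau ..f)) (xB i) (yB i) .. (ζ i)` has `qbd WB ∈ QC0 G Om`.
(3) `lam' : HG Z_c k →+ Om` with `j (lam' y) = lam y` (`exists_lift_lam`: numerator times the inverse of the denominator,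
    additive because `j` is injective); `exists_cocycle'` gives a cocycle `φ` with values in `Om`, `HG.ev φ = lam'`.
    `key`: `TQ (fL π φ) WB = 0`; apply `j` (`TQ_map`, `QC.map_map`, `map_PM`, `map_syC`): with `φL = fun x => j (φ x)`,
    `TQ (fL π φL) (Lw + ∑ i, PM .. (xB i).map j (yB i).map j ..) = 0`.
(4) `PM_cmp` for `X = xA i, Y = yA i`, `X' = (xB i).map (lau ..j)`, `Y' = (yB i).map (lau ..j)`:
    `X Y' = xA yA vL(n) = vL(n)`, so `V = gz (vL n)` with inverse `gz (vL (-n))`, and `D = 1 - E + Y X'` with inverse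
    `1 - E + Y' X` (`exists_VD`); `TQ_fL_bd`, `TQ_const`, `TQ_unit`, `der_coeff_vL`:
    `TQ (PM') - TQ (PM) = (-1) ^ (k + 1) * ∑ d, (∑ χ, n χ m * (|C|⁻¹ * fL (χ d)⁻¹)) * lam (trc .. d (z i))`.
(5) Sum over `i`: `0 = TQ (fL π φL) WL + (-1) ^ (k + 1) * (left side)`, and `TQ (fL π φL) WL = ∑ s, ω s * lam (a s)`.
-/

set_option autoImplicit false

open Matrix
open scoped LaurentPolynomial

universe u v w

namespace Pool.Agent.H16.KN

open Pool.Agent.H71.FQ
open Pool.Agent.H95.KM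
open Pool.Agent.H71.FJ (K0 K0.mk IdemMat)

section aux

variable {R : Type} [CommRing R] {G : Type v} [Group G] {k : ℕ}

/-- the chain of a trivialization -/
noncomputable def rlP (C : Subgroup G) (E : IdemMat (MonoidAlgebra R C)[T;T⁻¹])
    (X : Matrix (Fin 1) (Fin E.n) (MonoidAlgebra R C)[T;T⁻¹])
    (Y : Matrix (Fin E.n) (Fin 1) (MonoidAlgebra R C)[T;T⁻¹]) (hXY : X * Y = 1)
    (hYX : Y * X = E.mat) (z : Cx ℤ (Subgroup.centralizer (C : Set G)) k) :
    QC (MonoidAlgebra R (G × Multiplicative ℤ)) (k + 1) :=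
  PM (gz R C.subtype) (gk R (Subgroup.centralizer (C : Set G)).subtype)
    (gz_comm R C.subtype (Subgroup.centralizer (C : Set G)).subtype (cent_comm C)) E X Y hXY hYX z

theorem rlP_congr (C : Subgroup G) {N : ℕ}
    {e e' : Matrix (Fin N) (Fin N) (MonoidAlgebra R C)[T;T⁻¹]} (he : e * e = e)
    (he' : e' * e' = e') (h : e = e')
    {X X' : Matrix (Fin 1) (Fin N) (MonoidAlgebra R C)[T;T⁻¹]}
    {Y Y' : Matrix (Fin N) (Fin 1) (MonoidAlgebra R C)[T;T⁻¹]} (hX : X = X') (hY : Y = Y')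
    (hXY : X * Y = 1) (hYX : Y * X = e) (hXY' : X' * Y' = 1) (hYX' : Y' * X' = e')
    (z : Cx ℤ (Subgroup.centralizer (C : Set G)) k) :
    rlP C ⟨N, e, he⟩ X Y hXY hYX z = rlP C ⟨N, e', he'⟩ X' Y' hXY' hYX' z := by
  subst h
  subst hX
  subst hY
  rfl

theorem rlP_map {R' : Type} [CommRing R'] (j : R →+* R') (C : Subgroup G)
    (E : IdemMat (MonoidAlgebra R C)[T;T⁻¹])
    (X : Matrix (Fin 1) (Fin E.n) (MonoidAlgebra R C)[T;T⁻¹])
    (Y : Matrix (Fin E.n) (Fin 1) (MonoidAlgebra R C)[T;T⁻¹]) (hXY : X * Y = 1)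
    (hYX : Y * X = E.mat)
    (hXY' : X.map (lau (MonoidAlgebra.mapRingHom C j)) *
      Y.map (lau (MonoidAlgebra.mapRingHom C j)) = 1)
    (hYX' : Y.map (lau (MonoidAlgebra.mapRingHom C j)) *
      X.map (lau (MonoidAlgebra.mapRingHom C j)) =
        (E.map (lau (MonoidAlgebra.mapRingHom C j))).mat)
    (z : Cx ℤ (Subgroup.centralizer (C : Set G)) k) :
    QC.map (MonoidAlgebra.mapRingHom (G × Multiplicative ℤ) j) (rlP C E X Y hXY hYX z) =
      rlP C (E.map (lau (MonoidAlgebra.mapRingHom C j)))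
        (X.map (lau (MonoidAlgebra.mapRingHom C j)))
        (Y.map (lau (MonoidAlgebra.mapRingHom C j))) hXY' hYX' z :=
  map_PM (gz R C.subtype) (gk R (Subgroup.centralizer (C : Set G)).subtype)
    (gz_comm R C.subtype (Subgroup.centralizer (C : Set G)).subtype (cent_comm C)) E
    (gz R' C.subtype) (gk R' (Subgroup.centralizer (C : Set G)).subtype)
    (gz_comm R' C.subtype (Subgroup.centralizer (C : Set G)).subtype (cent_comm C))
    (lau (MonoidAlgebra.mapRingHom C j)) (MonoidAlgebra.mapRingHom (G × Multiplicative ℤ) j)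
    (fun b => map_gz j C.subtype b)
    (fun γ => map_gk j (Subgroup.centralizer (C : Set G)).subtype γ) X Y hXY hYX hXY' hYX' z

theorem rl_mem0 {M : Type*} [AddCommGroup M] {S : AddSubgroup M} {a b c : M}
    (h : a - b ∈ S) (h' : c + b ∈ S) : a + c ∈ S := by
  have e : a + c = a - b + (c + b) := by abel
  rw [e]
  exact AddSubgroup.add_mem _ h h'

theorem rl_fL {R' : Type} [CommRing R'] (j : R →+* R') {c : G}
    (π : G → Subgroup.centralizer ({c} : Set G))
    (φ : (Fin (k + 2) → Subgroup.centralizer ({c} : Set G)) → R) :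
    (fun v => j (fL π φ v)) = fL π (fun x => j (φ x)) := by
  funext v
  show j (_ * ldg R _ _) = _ * ldg R' _ _
  rw [map_mul, ldg, map_intCast]
  rfl

theorem rl_coc {R' : Type} [CommRing R'] {Γ : Type v} [Group Γ] (j : R →+* R')
    {φ : (Fin (k + 2) → Γ) → R} (hφ : IsCoc Γ k φ) : IsCoc Γ k fun x => j (φ x) where
  inv g x := congrArg j (hφ.inv g x)
  coc x := by
    have h := congrArg j (hφ.coc x)
    rw [map_sum, map_zero] at h
    simp only [map_zsmul] at h
    exact h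

theorem rl_map_map {O R' : Type} [CommRing O] [CommRing R'] (f : O →+* R) (j : R →+* R')
    {fL : O →+* R'} (h : j.comp f = fL) (C : Subgroup G)
    (E : IdemMat (MonoidAlgebra O C)[T;T⁻¹]) :
    ((E.map (lau (MonoidAlgebra.mapRingHom C f))).map (lau (MonoidAlgebra.mapRingHom C j))).mat =
      (E.map (lau (MonoidAlgebra.mapRingHom C fL))).mat := by
  subst h
  refine Matrix.ext fun a b => ?_
  show lau (MonoidAlgebra.mapRingHom C j) (lau (MonoidAlgebra.mapRingHom C f) (E.mat a b)) =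
    lau (MonoidAlgebra.mapRingHom C (j.comp f)) (E.mat a b)
  rw [← RingHom.comp_apply, ← lau_comp]
  congr 2
  exact (MonoidAlgebra.mapRingHom_comp _ _).symm

theorem rl_sign {L : Type*} [Field L] (k : ℕ) (x y : L)
    (h : x + (-1) ^ (k + 1) * y = 0) : y = (-1) ^ k * x := by
  have hs : ((-1 : L) ^ k) * (-1) ^ k = 1 := by
    rw [← mul_pow, neg_one_mul, neg_neg, one_pow]
  have hx : x = (-1) ^ k * y := by
    rw [pow_succ] at h
    linear_combination h
  rw [hx, ← mul_assoc, hs, one_mul]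

end aux

end Pool.Agent.H16.KN
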