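import Pool.Agent.H13.TFQ.H16.KN.Cmp_1
import Pool.Agent.H13.TFQ.H16.KN.Rel
import Pool.Agent.H13.TFQ.M107
import Pool.Agent.H13.TFQ.M90

/-!
# Project KN: the relations

Model of the statement: `rel_two` in `Pool/Agent/H8/KZ/RelD.lean`.

PROOF of `relN`.  `choose` `E i, xA i, yA i` from `exists_triv`; `z i = HG.mk (ζ i)`; `exists_chain` (over `O`) gives `w`.
`Lw = QC.map (mapRingHom (G × ℤ) fL) w`; for `R = O, Om, L` let `syC R ..` be the chains of the symbols (`map_syC`).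
(1) Over `L`: `WL = Lw + ∑ i, PM (gz L ..) (gk L ..) _ ((E i).map (lau ..fL)) (xA i) (yA i) .. (ζ i)` has `qbd WL ∈ QC0 G L` by
    `qbd_PM`, `QC0_map`, `QC.map_bd` and `const_mem` (`ch N (push (fun _ => 1) ζ) ∈ QC0`).  `exists_class` (for a fixed `π` from
    `exists_pi c`) gives `r, ω, a`.  Take `w s = (-1) ^ k * ω s` (`k` the degree).
(2) Let `m, Om, f, j, p, ..` be given, `xB i, yB i` from `exists_triv`.  `WB = QC.map (mapRingHom .. f) w +
    ∑ i, PM (gz Om ..) .. ((E i).map (lau ..f)) (xB i) (yB i) .. (ζ i)` has `qbd WB ∈ QC0 G Om`.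
(3) `lam' : HG Z_c k →+ Om` with `j (lam' y) = lam y` (`exists_lift_lam`: numerator times the inverse of the denominator,
    additive because `j` is injective); `exists_cocycle'` gives a cocycle `φ` with values in `Om`, `HG.ev φ = lam'`.
    `key`: `TQ (fL π φ) WB = 0`; apply `j` (`TQ_map`, `QC.map_map`, `map_PM`, `map_syC`): with `φL = fun x => j (φ x)`,
    `TQ (fL π φL) (Lw + ∑ i, PM .. (xB i).map j (yB i).map j ..) = 0`.
(4) `PM_cmp` for `X = xA i, Y = yA i`, `X' = (xB i).map (lau ..j)`, `Y' = (yB i).map (lau ..j)`: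
    `X Y' = xA yA vL(n) = vL(n)`, so `V = gz (vL n)` with inverse `gz (vL (-n))`, and `D = 1 - E + Y X'` with inverse
    `1 - E + Y' X` (`exists_VD`); `TQ_fL_bd`, `TQ_const`, `TQ_unit`, `der_coeff_vL`:
    `TQ (PM') - TQ (PM) = (-1) ^ (k + 1) * ∑ d, (∑ χ, n χ m * (|C|⁻¹ * fL (χ d)⁻¹)) * lam (trc .. d (z i))`.
(5) Sum over `i`: `0 = TQ (fL π φL) WL + (-1) ^ (k + 1) * (left side)`, and `TQ (fL π φL) WL = ∑ s, ω s * lam (a s)`.
-/

set_option autoImplicit false

open Matrix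
open scoped LaurentPolynomial

universe u v w

namespace Pool.Agent.H16.KN

open Pool.Agent.H71.FQ
open Pool.Agent.H95.KM
open Pool.Agent.H71.FJ (K0 K0.mk IdemMat)

section aux

variable {R : Type} [CommRing R] {G : Type v} [Group G] {k : ℕ}

private theorem rlP_bd (C : Subgroup G) (E : IdemMat (MonoidAlgebra R C)[T;T⁻¹])
    (X : Matrix (Fin 1) (Fin E.n) (MonoidAlgebra R C)[T;T⁻¹])
    (Y : Matrix (Fin E.n) (Fin 1) (MonoidAlgebra R C)[T;T⁻¹]) (hXY : X * Y = 1)
    (hYX : Y * X = E.mat) (z : cyc (Subgroup.centralizer (C : Set G)) k) :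
    qbd (rlP C E X Y hXY hYX (z : Cx ℤ (Subgroup.centralizer (C : Set G)) (k + 1))) +
      syC R C E (z : Cx ℤ (Subgroup.centralizer (C : Set G)) (k + 1)) ∈ QC0 G R (k + 1) := by
  have h := qbd_PM (gz R C.subtype) (gk R (Subgroup.centralizer (C : Set G)).subtype)
    (gz_comm R C.subtype (Subgroup.centralizer (C : Set G)).subtype (cent_comm C)) E X Y hXY hYX z
  have e : qbd (rlP C E X Y hXY hYX (z : Cx ℤ (Subgroup.centralizer (C : Set G)) (k + 1))) +
      syC R C E (z : Cx ℤ (Subgroup.centralizer (C : Set G)) (k + 1)) = _ := h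
  rw [e]
  exact AddSubgroup.sub_mem _ (const_mem _ _) (const_mem _ _)

theorem rl_mem {O : Type} [CommRing O] (f : O →+* R) {ι : Type} [Fintype ι]
    (C : ι → Subgroup G) (E : ∀ i, IdemMat (MonoidAlgebra O (C i))[T;T⁻¹])
    (ζ : ∀ i, cyc (Subgroup.centralizer (C i : Set G)) k)
    {w : QC (MonoidAlgebra O (G × Multiplicative ℤ)) (k + 2)}
    (hw : qbd w - ∑ i, syC O (C i) (E i) (ζ i : Cx ℤ _ (k + 1)) ∈ QC0 G O (k + 1))
    (X : ∀ i, Matrix (Fin 1) (Fin (E i).n) (MonoidAlgebra R (C i))[T;T⁻¹])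
    (Y : ∀ i, Matrix (Fin (E i).n) (Fin 1) (MonoidAlgebra R (C i))[T;T⁻¹])
    (hXY : ∀ i, X i * Y i = 1)
    (hYX : ∀ i, Y i * X i = ((E i).map (lau (MonoidAlgebra.mapRingHom (C i) f))).mat) :
    qbd (QC.map (MonoidAlgebra.mapRingHom (G × Multiplicative ℤ) f) w +
      ∑ i, rlP (C i) ((E i).map (lau (MonoidAlgebra.mapRingHom (C i) f))) (X i) (Y i) (hXY i)
        (hYX i) (ζ i : Cx ℤ (Subgroup.centralizer (C i : Set G)) (k + 1))) ∈
      QC0 G R (k + 1) := by
  have h1 := QC0_map f hw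
  rw [map_sub, map_sum, QC.map_bd] at h1
  have e : ∑ i, QC.map (MonoidAlgebra.mapRingHom (G × Multiplicative ℤ) f)
      (syC O (C i) (E i) (ζ i : Cx ℤ (Subgroup.centralizer (C i : Set G)) (k + 1))) =
      ∑ i, syC R (C i) ((E i).map (lau (MonoidAlgebra.mapRingHom (C i) f)))
        (ζ i : Cx ℤ (Subgroup.centralizer (C i : Set G)) (k + 1)) :=
    Finset.sum_congr rfl fun i _ => map_syC f (C i) (E i) _
  rw [e] at h1
  have h2 : ∑ i, (qbd (rlP (C i) ((E i).map (lau (MonoidAlgebra.mapRingHom (C i) f))) (X i) (Y i)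
        (hXY i) (hYX i) (ζ i : Cx ℤ (Subgroup.centralizer (C i : Set G)) (k + 1))) +
      syC R (C i) ((E i).map (lau (MonoidAlgebra.mapRingHom (C i) f)))
        (ζ i : Cx ℤ (Subgroup.centralizer (C i : Set G)) (k + 1))) ∈ QC0 G R (k + 1) :=
    AddSubgroup.sum_mem _ fun i _ => rlP_bd (C i)
      ((E i).map (lau (MonoidAlgebra.mapRingHom (C i) f))) (X i) (Y i) (hXY i) (hYX i) (ζ i)
  rw [Finset.sum_add_distrib] at h2
  rw [map_add, map_sum]
  exact rl_mem0 h1 h2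

end aux

end Pool.Agent.H16.KN
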